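import Pool.Agent.Y166.DP.Stm
import Pool.Agent.W602.GT.Der

/-! Lifts of derivations of the field of constants. -/

set_option autoImplicit false

namespace Pool.Agent.Y166.DP

open Polynomial FF

/-- the algebra structure given by a transcendental element -/
theorem alg_of_tr {k K : Type} [Field k] [Field K] [Algebra k K] (x : K)
    (hB : IsTranscendenceBasis k (fun _ : Unit => x)) :
    letI : Algebra k[X] K := ((aeval x : k[X] →ₐ[k] K) : k[X] →+* K).toAlgebra
    Algebra.IsAlgebraic k[X] K := by
  let _ : Algebra k[X] K := ((aeval x : k[X] →ₐ[k] K) : k[X] →+* K).toAlgebra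
  have h1 := hB.isAlgebraic
  rw [Set.range_const, Algebra.adjoin_singleton_eq_range_aeval] at h1
  refine Algebra.IsAlgebraic.of_ringHom_of_comp_eq
    (f := ((aeval x : k[X] →ₐ[k] K).rangeRestrict : k[X] →ₐ[k] _))
    (g := RingHom.id K) ?_ Function.injective_id ?_
  · exact (aeval x : k[X] →ₐ[k] K).rangeRestrict_surjective
  · ext p
    · rfl
    · rfl

theorem stmExt : StmExt := by
  intro k K _ _ _ _ hFF x hx
  have hB : IsTranscendenceBasis k (fun _ : Unit => x) := hFF.basis hx
  have hst0 : Set.range (fun _ : Unit => x) = {x} := Set.range_const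
  constructor
  · intro D
    have hinj : Function.Injective (aeval x : k[X] →ₐ[k] K) :=
      transcendental_iff_injective.1 hx
    have halg := alg_of_tr x hB
    let _ : Algebra k[X] K := ((aeval x : k[X] →ₐ[k] K) : k[X] →+* K).toAlgebra
    have hfs : FaithfulSMul k[X] K := (faithfulSMul_iff_algebraMap_injective _ _).2 hinj
    let _ : Algebra (FractionRing k[X]) K := FractionRing.liftAlgebra k[X] K
    have hst2 : IsScalarTower k[X] (FractionRing k[X]) K := inferInstance
    have halg2 : Algebra.IsAlgebraic (FractionRing k[X]) K :=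
      (IsFractionRing.comap_isAlgebraic_iff (A := k[X]) (K := FractionRing k[X]) (C := K)).1 halg
    have hchar : CharZero (FractionRing k[X]) := inferInstance
    have hsep : Algebra.IsSeparable (FractionRing k[X]) K := inferInstance
    have h1 : Algebra.FormallyEtale (FractionRing k[X]) K :=
      Algebra.FormallyEtale.of_isSeparable _ _
    have h2 : Algebra.FormallyEtale k[X] (FractionRing k[X]) :=
      Algebra.FormallyEtale.of_isLocalization (nonZeroDivisors k[X])
    have h3 : Algebra.FormallyEtale k[X] K :=
      Algebra.FormallyEtale.comp k[X] (FractionRing k[X]) K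
    let e := KaehlerDifferential.tensorKaehlerEquivOfFormallyEtale ℤ k[X] K
    letI : Differential k := ⟨D⟩
    let d : Derivation ℤ k[X] K := (Algebra.linearMap k[X] K).compDer Differential.mapCoeffs
    let l : Ω[k[X]⁄ℤ] →ₗ[k[X]] K := d.liftKaehlerDifferential
    let Λ : Ω[K⁄ℤ] →ₗ[K] K := (LinearMap.liftBaseChange K l).comp e.symm.toLinearMap
    let D' : Derivation ℤ K K := Λ.compDer (KaehlerDifferential.D ℤ K)
    have hD' : ∀ p : k[X], D' (aeval x p) = d p := by
      intro p
      have h5 : aeval x p = algebraMap k[X] K p := rfl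
      change Λ (KaehlerDifferential.D ℤ K (aeval x p)) = _
      change LinearMap.liftBaseChange K l (e.symm (KaehlerDifferential.D ℤ K (aeval x p))) = _
      rw [h5, KaehlerDifferential.tensorKaehlerEquivOfFormallyEtale_symm_D_algebraMap]
      simp [l]
    have hd : ∀ p : k[X], d p = aeval x (Differential.mapCoeffs p) := fun p => rfl
    refine ⟨D', ?_, ?_⟩
    · intro c
      have h6 := hD' (C c)
      rw [aeval_C, hd, Differential.mapCoeffs_C, aeval_C] at h6
      exact h6
    · have h6 := hD' X
      rw [aeval_X, hd, Differential.mapCoeffs_X, map_zero] at h6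
      exact h6
  · intro D₁ D₂ h1 h2
    have h3 : ∀ c : k, (D₁ - D₂) (algebraMap k K c) = 0 := by
      intro c
      rw [Derivation.sub_apply, h1, sub_self]
    let E : Derivation k K K := Derivation.mk' 
      { toFun := fun z => (D₁ - D₂) z
        map_add' := fun a b => map_add _ a b
        map_smul' := fun c a => by
          rw [Algebra.smul_def, Derivation.leibniz, h3]
          simp [Algebra.smul_def] } (fun a b => (D₁ - D₂).leibniz a b)
    have hE : E = 0 := by
      refine Pool.Agent.W602.GT.der_eq_zero E {x} ?_ ?_
      · rw [← hst0]; exact hB.isAlgebraic_field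
      · rintro s rfl
        change (D₁ - D₂) s = 0
        rw [Derivation.sub_apply, h2, sub_self]
    ext z
    have h4 : E z = 0 := by rw [hE]; rfl
    have h5 : (D₁ - D₂) z = 0 := h4
    rw [Derivation.sub_apply] at h5
    exact sub_eq_zero.1 h5

end Pool.Agent.Y166.DP
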