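import Pool.Agent.Y166.DP.Main
import Pool.Agent.Y166.DP.Ext
import Pool.Agent.Y43.DP.FF
import Pool.Agent.Y43.DP.Inf
import Pool.Agent.Y43.DP.Del
import Pool.Agent.Y43.DP.Pts
import Pool.Agent.Y43.DP.Phi
import Pool.Agent.Y43.DP.Tan
import Pool.Agent.Y352.DP.No1
import Pool.Agent.Y352.DP.Basis
import Pool.Agent.Y352.DP.RR
import Pool.Agent.Y352.DP.Prime
import Pool.Agent.Y352.DP.Line
import Pool.Agent.Y167.DP.Model
import Pool.Agent.Y179.DP.Loc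
import Pool.Agent.Y179.DP.Pres
import Pool.Agent.Y179.DP.KS
import Pool.Agent.Y179.DP.Ker
import Pool.Agent.Y179.DP.Fld
import Pool.Agent.Y179.DP.Mov
import Pool.Agent.Y434.DP.Rk
import Pool.Agent.Y658.DP.GEN
import Pool.Agent.Y198.DP2.Comp
import Pool.Agent.Y198.DP2.Spec
import Pool.Agent.Y198.DP2.Surf
import Pool.Agent.Y198.DP2.Eqn
import Pool.Agent.Y761.DP.UU
import Pool.Agent.Y761.DP.Ht
import Pool.Agent.Y761.DP.Inj
import Pool.Agent.Y441.DP.Asym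

/-! The main theorem. -/

set_option autoImplicit false
set_option linter.unusedSectionVars false

namespace Pool.Agent.Y166.DP

open MvPolynomial FF Pool.Agent.W603.LV Pool.Agent.TH145.GH

theorem s_inf : StmInf := Pool.Agent.Y43.DP.stmInf
theorem s_no1 : StmNo1 := Pool.Agent.Y352.DP.stmNo1 s_inf
theorem s_basis : StmBasis := Pool.Agent.Y352.DP.stmBasis s_inf s_no1
theorem s_rr : StmRR := Pool.Agent.Y352.DP.stmRR s_inf s_no1 s_basis
theorem s_pts : StmPts := Pool.Agent.Y43.DP.stmPts s_inf s_no1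
theorem s_del : StmDel := Pool.Agent.Y43.DP.stmDel s_inf s_pts
theorem s_phi : StmPhi := Pool.Agent.Y43.DP.stmPhi s_inf s_pts
theorem s_uu : StmUU := Pool.Agent.Y761.DP.stmUU s_inf s_basis s_pts s_phi
theorem s_pres : StmPres := Pool.Agent.Y179.DP.stmPres
theorem s_inj : StmInj := Pool.Agent.Y761.DP.stmInj s_inf s_basis s_pres s_phi s_uu
theorem s_ht : StmHt := Pool.Agent.Y761.DP.stmHt s_inf s_basis s_rr s_pts stmExt s_pres s_phi s_uu
theorem s_tan : StmTan := Pool.Agent.Y43.DP.stmTan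
theorem s_mov : StmMov := Pool.Agent.Y179.DP.stmMov s_tan
theorem s_ker : StmKer := Pool.Agent.Y179.DP.stmKer s_inf s_no1 s_basis stmExt
theorem s_rk : StmRK := Pool.Agent.Y434.DP.stmRK s_inf s_no1 s_basis s_rr
theorem s_line : StmLine := Pool.Agent.Y352.DP.stmLine s_inf s_no1

theorem main {K : Type} [Field K] [Algebra ℂ K] (lam : ℂ) (hlam : Transcendental ℚ lam) (x y : K)
    (hE : Ell ℂ K lam x y) :
    (∀ (d : ℕ) (g : Fin 3 → K) (h : K), g ≠ 0 → x * h ^ 2 = quart g → ht ℂ g = d →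
      ∃ c : Idx d → ℂ, c ∈ cone x y d ∧ ∃ f : K, f ≠ 0 ∧ (∀ i, gv x y c i = f * g i) ∧
        xh x y c = f ^ 2 * (x * h)) ∧
    (∀ (d : ℕ) (c c' : Idx d → ℂ), c ∈ cone x y d → ∀ f : K, f ≠ 0 →
      (∀ i, gv x y c' i = f * gv x y c i) → xh x y c' = f ^ 2 * xh x y c →
      ∃ t : ℂ, t ≠ 0 ∧ (∀ p, c' (.inl p) = t * c (.inl p)) ∧
        ∀ p, c' (.inr p) = t ^ 2 * c (.inr p)) ∧
    (∀ d : ℕ, d.Prime → Odd d → ∀ M : Set (Idx d → ℂ), IsComp (cone x y d) M → dimSec M ≤ d) ∧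
    (∀ m : ℕ, 2 ≤ m → ∃ M : Set (Idx (2 * m) → ℂ), IsComp (cone x y (2 * m)) M ∧
      ¬ InSurface x y M ∧ 2 * m + 1 ≤ dimSec M) ∧
    ∀ Acc : ∀ d, Set (Set (Idx d → ℂ)), (∀ d, ∀ M ∈ Acc d, InSurface x y M) →
      ¬ ∀ q : ℝ, 1 < q → ∃ C : ℝ, 0 < C ∧
        Filter.Tendsto (fun d : ℕ => NN x y Acc q d / ENNReal.ofReal q ^ d) Filter.atTop
          (nhds (ENNReal.ofReal C)) :=
  main_of s_inf s_basis stmExt Pool.Agent.Y179.DP.stmDual s_phi s_uu s_ht s_inj s_tan s_mov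
    Pool.Agent.Y43.DP.stmFF Pool.Agent.Y167.DP.stmMap Pool.Agent.Y167.DP.stmModel s_rk
    Pool.Agent.Y198.DP2.stmEqn Pool.Agent.Y179.DP.stmAlg Pool.Agent.Y198.DP2.stmSpec
    Pool.Agent.Y198.DP2.stmSurf Pool.Agent.Y198.DP2.stmNoSurf Pool.Agent.Y198.DP2.stmComp
    Pool.Agent.Y198.DP2.stmDim s_del s_rr Pool.Agent.Y179.DP.stmLoc s_ker
    Pool.Agent.Y352.DP.stmPrime s_line Pool.Agent.Y658.DP.stmGen Pool.Agent.Y441.DP.stmAsym
    lam hlam x y hE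

theorem modelB {lam : ℂ} (hlam : Transcendental ℚ lam) :
    Ell ℂ (KB ℂ lam) lam (xB ℂ lam) (yB ℂ lam) :=
  Pool.Agent.Y167.DP.stmModel ℂ lam (by rintro rfl; exact hlam isAlgebraic_zero)
    (by rintro rfl; exact hlam isAlgebraic_one)

end Pool.Agent.Y166.DP
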