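import Pool.Agent.Y441.DP.Asym
import Pool.Agent.Y166.DP.All

/-! The asymptotic formula fails for all large `q`. -/

set_option autoImplicit false
set_option linter.unusedSectionVars false

namespace Pool.Agent.Y166.DP

open Filter Topology ENNReal Pool.Agent.Y441.DP

theorem asym_two (ι : ℕ → Type) (dm : ∀ d, ι d → ℕ)
    (hodd : ∀ p : ℕ, p.Prime → Odd p → ∀ M : ι p, dm p M ≤ p)
    (heven : ∀ m : ℕ, 2 ≤ m → ∃ M : ι (2 * m), 2 * m + 1 ≤ dm (2 * m) M)
    (q₀ : ℝ) (hq₀ : 1 < q₀) (C2 : ℝ) (hC2 : 0 < C2)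
    (hT2 : Filter.Tendsto (fun d : ℕ =>
      (∑ i ∈ Finset.Icc 1 d, ∑' M : ι i, ENNReal.ofReal q₀ ^ dm i M) /
        ENNReal.ofReal q₀ ^ d) Filter.atTop (nhds (ENNReal.ofReal C2)))
    (q : ℝ) (hqq : q₀ ≤ q) (hqC : C2 + 1 < q) (C : ℝ) (hC : 0 < C)
    (hT : Filter.Tendsto (fun d : ℕ =>
      (∑ i ∈ Finset.Icc 1 d, ∑' M : ι i, ENNReal.ofReal q ^ dm i M) /
        ENNReal.ofReal q ^ d) Filter.atTop (nhds (ENNReal.ofReal C))) : False := by
  set A : ℝ → ℕ → ℝ≥0∞ := fun q i => ∑' M : ι i, ENNReal.ofReal q ^ dm i M with hA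
  -- eventually bounded
  have hlt : ENNReal.ofReal C2 < ENNReal.ofReal (C2 + 1) :=
    (ENNReal.ofReal_lt_ofReal_iff (by linarith)).2 (by linarith)
  have hev := hT2.eventually (Filter.Eventually.mono (eventually_lt_nhds hlt) fun _ h => le_of_lt h)
  have hev2 : ∀ᶠ d : ℕ in atTop, A q₀ (d + 1) ≤ ENNReal.ofReal (C2 + 1) * ENNReal.ofReal q₀ ^ (d + 1) := by
    have hh := (tendsto_add_atTop_nat 1).eventually hev
    filter_upwards [hh] with d hd
    have h2 : (∑ i ∈ Finset.Icc 1 (d + 1), A q₀ i) / ENNReal.ofReal q₀ ^ (d + 1) ≤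
        ENNReal.ofReal (C2 + 1) := hd
    have h3 : A q₀ (d + 1) ≤ ∑ i ∈ Finset.Icc 1 (d + 1), A q₀ i :=
      Finset.single_le_sum (f := fun i => A q₀ i) (fun _ _ => zero_le)
        (Finset.mem_Icc.2 ⟨by omega, le_rfl⟩)
    have h4 := (ENNReal.div_le_iff_le_mul (Or.inl (by positivity))
      (Or.inl (ENNReal.pow_ne_top ENNReal.ofReal_ne_top))).1 h2
    exact h3.trans h4
  have hq1 : 1 < q := by linarith
  have hq00 : 0 < q₀ := by linarith
  have hqd : 0 ≤ q / q₀ := by positivity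
  have hqm : q / q₀ * q₀ = q := div_mul_cancel₀ q hq00.ne'
  have hqd1 : 1 ≤ q / q₀ := (one_le_div hq00).2 hqq
  set Q : ℝ≥0∞ := ENNReal.ofReal q with hQ
  have hQ0 : Q ≠ 0 := by
    rw [hQ]; exact (ENNReal.ofReal_pos.2 (by linarith)).ne'
  have hQt : Q ≠ ⊤ := ENNReal.ofReal_ne_top
  set T : ℕ → ℝ≥0∞ := fun d => (∑ i ∈ Finset.Icc 1 d, A q i) / Q ^ d with hTd
  have hT' : Tendsto T atTop (𝓝 (ENNReal.ofReal C)) := hT
  have hT1 : Tendsto (fun d => T (d + 1)) atTop (𝓝 (ENNReal.ofReal C)) :=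
    hT'.comp (tendsto_add_atTop_nat 1)
  have hTq : Tendsto (fun d => T d / Q) atTop (𝓝 (ENNReal.ofReal C / Q)) :=
    ENNReal.Tendsto.div_const hT' (Or.inr hQ0)
  have hrec : ∀ d, T (d + 1) = T d / Q + A q (d + 1) / Q ^ (d + 1) := fun d =>
    rec_eq (A q) Q hQ0 hQt d
  -- upper bound along odd primes
  have hup : ENNReal.ofReal C ≤ ENNReal.ofReal C / Q + ENNReal.ofReal (C2 + 1) := by
    refine le_of_tendsto_of_tendsto_of_frequently hT1 (hTq.add tendsto_const_nhds) ?_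
    refine (odd_prime_frequently.and_eventually hev2).mono ?_
    rintro d ⟨⟨hp, ho⟩, hb⟩
    rw [hrec]
    gcongr
    rw [ENNReal.div_le_iff_le_mul (Or.inl (pow_ne_zero _ hQ0)) (Or.inl (ENNReal.pow_ne_top hQt))]
    have hterm : A q (d + 1) ≤ ENNReal.ofReal (q / q₀) ^ (d + 1) * A q₀ (d + 1) := by
      rw [hA]
      simp only
      rw [← ENNReal.tsum_mul_left]
      refine ENNReal.tsum_le_tsum fun M => ?_
      have h1 : ENNReal.ofReal q = ENNReal.ofReal (q / q₀) * ENNReal.ofReal q₀ := by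
        rw [← ENNReal.ofReal_mul hqd, hqm]
      rw [h1, mul_pow]
      gcongr
      · rw [← ENNReal.ofReal_one]
        exact ENNReal.ofReal_le_ofReal (by linarith)
      · exact hodd _ hp ho M
    calc A q (d + 1) ≤ ENNReal.ofReal (q / q₀) ^ (d + 1) * A q₀ (d + 1) := hterm
      _ ≤ ENNReal.ofReal (q / q₀) ^ (d + 1) *
          (ENNReal.ofReal (C2 + 1) * ENNReal.ofReal q₀ ^ (d + 1)) := by gcongr
      _ = ENNReal.ofReal (C2 + 1) * (ENNReal.ofReal (q / q₀) * ENNReal.ofReal q₀) ^ (d + 1) := by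
          rw [mul_pow]; ring
      _ = ENNReal.ofReal (C2 + 1) * Q ^ (d + 1) := by
          rw [← ENNReal.ofReal_mul hqd, hqm]
  -- lower bound along even numbers
  have hlo : ENNReal.ofReal C / Q + Q ≤ ENNReal.ofReal C := by
    refine le_of_tendsto_of_tendsto_of_frequently (hTq.add tendsto_const_nhds) hT1 ?_
    rw [Filter.frequently_atTop]
    intro N
    refine ⟨2 * (N + 2) - 1, by omega, ?_⟩
    have he : 2 * (N + 2) - 1 + 1 = 2 * (N + 2) := by omega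
    rw [hrec]
    gcongr
    rw [ENNReal.le_div_iff_mul_le (Or.inl (pow_ne_zero _ hQ0)) (Or.inl (ENNReal.pow_ne_top hQt)), he]
    obtain ⟨M, hM⟩ := heven (N + 2) (by omega)
    calc Q * Q ^ (2 * (N + 2)) = Q ^ (2 * (N + 2) + 1) := by rw [pow_succ]; ring
      _ ≤ Q ^ dm (2 * (N + 2)) M := by
          gcongr
          rw [hQ, ← ENNReal.ofReal_one]
          exact ENNReal.ofReal_le_ofReal (by linarith)
      _ ≤ A q (2 * (N + 2)) := ENNReal.le_tsum (f := fun M => ENNReal.ofReal q ^ dm (2 * (N + 2)) M) M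
  -- contradiction
  have h1 : ENNReal.ofReal C / Q = ENNReal.ofReal (C / q) := by
    rw [hQ, ENNReal.ofReal_div_of_pos (by linarith)]
  have h2 : ENNReal.ofReal (C / q) + Q = ENNReal.ofReal (C / q + q) := by
    rw [hQ, ← ENNReal.ofReal_add (by positivity) (by linarith)]
  have h3 : ENNReal.ofReal (C / q) + ENNReal.ofReal (C2 + 1) = ENNReal.ofReal (C / q + (C2 + 1)) := by
    rw [← ENNReal.ofReal_add (by positivity) (by linarith)]
  rw [h1, h3, ENNReal.ofReal_le_ofReal_iff (by positivity)] at hup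
  rw [h1, h2, ENNReal.ofReal_le_ofReal_iff hC.le] at hlo
  linarith

/-- The asymptotic formula fails for all large `q`. -/
theorem main2 {K : Type} [Field K] [Algebra ℂ K] (lam : ℂ) (hlam : Transcendental ℚ lam) (x y : K)
    (hE : Ell ℂ K lam x y) (Acc : ∀ d, Set (Set (Idx d → ℂ)))
    (hAcc : ∀ d, ∀ M ∈ Acc d, InSurface x y M) :
    ∃ Q : ℝ, ∀ q : ℝ, Q < q → ¬ ∃ C : ℝ, 0 < C ∧
      Filter.Tendsto (fun d : ℕ => NN x y Acc q d / ENNReal.ofReal q ^ d) Filter.atTop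
        (nhds (ENNReal.ofReal C)) := by
  obtain ⟨-, -, hodd, heven, -⟩ := main lam hlam x y hE
  by_cases h : ∃ q₀ : ℝ, 1 < q₀ ∧ ∃ C : ℝ, 0 < C ∧
      Filter.Tendsto (fun d : ℕ => NN x y Acc q₀ d / ENNReal.ofReal q₀ ^ d) Filter.atTop
        (nhds (ENNReal.ofReal C))
  · obtain ⟨q₀, hq₀, C2, hC2, hT2⟩ := h
    refine ⟨max q₀ (C2 + 1), ?_⟩
    rintro q hq ⟨C, hC, hT⟩
    refine asym_two (fun d => Manin x y Acc d) (fun d M => dimSec M.1) ?_ ?_ q₀ hq₀ C2 hC2 hT2 q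
      ((le_max_left _ _).trans hq.le) ((le_max_right _ _).trans_lt hq) C hC hT
    · intro p hp hpo M
      exact hodd p hp hpo M.1 M.2.1
    · intro m hm
      obtain ⟨M, hM, hs, hd⟩ := heven m hm
      exact ⟨⟨M, hM, fun h => hs (hAcc _ M h)⟩, hd⟩
  · refine ⟨1, fun q hq hC => h ⟨q, hq, hC⟩⟩

end Pool.Agent.Y166.DP
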