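import Pool.Agent.Y166.DP.Defs

/-! Basic facts on the minimal order and the height of a vector of functions. -/

set_option autoImplicit false
set_option linter.unusedSectionVars false

namespace Pool.Agent.Y166.DP

open MvPolynomial FF Pool.Agent.W603.LV

section
variable {k K : Type} [Field k] [Field K] [Algebra k K] {ι : Type}

theorem mo_finite [Finite ι] (P : Place k K) (g : ι → K) :
    {n | ∃ i, g i ≠ 0 ∧ P.ord (g i) = n}.Finite := by
  apply (Set.finite_range fun i => P.ord (g i)).subset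
  rintro n ⟨i, -, rfl⟩
  exact ⟨i, rfl⟩

theorem mo_le [Finite ι] (P : Place k K) {g : ι → K} {i : ι} (hi : g i ≠ 0) :
    mo P g ≤ P.ord (g i) :=
  csInf_le (mo_finite P g).bddBelow ⟨i, hi, rfl⟩

theorem exists_mo [Finite ι] (P : Place k K) {g : ι → K} (hg : g ≠ 0) :
    ∃ i, g i ≠ 0 ∧ P.ord (g i) = mo P g := by
  have hne : {n | ∃ i, g i ≠ 0 ∧ P.ord (g i) = n}.Nonempty := by
    obtain ⟨i, hi⟩ := Function.ne_iff.1 hg
    exact ⟨_, i, hi, rfl⟩
  exact hne.csInf_mem (mo_finite P g)

theorem ge_mo [Finite ι] (P : Place k K) (g : ι → K) (i : ι) : Ge P (mo P g) (g i) := by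
  by_cases hi : g i = 0
  · exact Or.inl hi
  · exact Or.inr (mo_le P hi)

theorem le_mo [Finite ι] (P : Place k K) {g : ι → K} (hg : g ≠ 0) {n : ℤ}
    (h : ∀ i, Ge P n (g i)) : n ≤ mo P g := by
  obtain ⟨i, hi, e⟩ := exists_mo P hg
  rw [← e]
  exact (h i).resolve_left hi

theorem mo_eq [Finite ι] (P : Place k K) {g : ι → K} {i : ι} (hi : g i ≠ 0)
    (h : ∀ j, Ge P (P.ord (g i)) (g j)) : mo P g = P.ord (g i) :=
  le_antisymm (mo_le P hi) (le_mo P (fun h0 => hi (by rw [h0]; rfl)) h)

theorem mo_zero (P : Place k K) : mo P (0 : ι → K) = 0 := by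
  unfold mo
  have : {n | ∃ i, (0 : ι → K) i ≠ 0 ∧ P.ord ((0 : ι → K) i) = n} = ∅ := by
    ext n
    simp
  rw [this]
  exact Int.csInf_empty

/-- The minimal order of the products with a nonzero function. -/
theorem mo_smul [Finite ι] (P : Place k K) {g : ι → K} (hg : g ≠ 0) {f : K} (hf : f ≠ 0) :
    mo P (fun i => f * g i) = P.ord f + mo P g := by
  obtain ⟨i, hi, e⟩ := exists_mo P hg
  rw [mo_eq P (i := i) (mul_ne_zero hf hi), P.ord_mul hf hi, e]
  intro j
  rw [P.ord_mul hf hi, e]
  have h1 : Ge P (P.ord f) f := Or.inr le_rfl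
  exact h1.mul (ge_mo P g j)

/-- Vectors with the same span over the constants have the same minimal order. -/
theorem mo_le_of_comb [Finite ι] {κ : Type} [Finite κ] (P : Place k K) {g : ι → K} {u : κ → K}
    (hu : u ≠ 0) (h : ∀ j, ∃ a : ι → k, u j = ∑ᶠ i, algebraMap k K (a i) * g i) :
    mo P g ≤ mo P u := by
  classical
  haveI := Fintype.ofFinite ι
  refine le_mo P hu fun j => ?_
  obtain ⟨a, ha⟩ := h j
  rw [ha, finsum_eq_sum_of_fintype]
  refine Ge.sum _ _ fun i _ => ?_
  have := (Ge.const (P := P) (a i)).mul (ge_mo P g i)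
  rwa [zero_add] at this

variable [CharZero k] [IsFF k K]

theorem mo_supp [Finite ι] (g : ι → K) : {P : Place k K | mo P g ≠ 0}.Finite := by
  classical
  haveI := Fintype.ofFinite ι
  by_cases hg : g = 0
  · rw [hg]
    simp [mo_zero]
  obtain ⟨T, hT⟩ := exists_supp (k := k) (Finset.univ : Finset ι) g
  apply T.finite_toSet.subset
  intro P hP
  obtain ⟨i, hi, e⟩ := exists_mo P hg
  apply hT i (Finset.mem_univ _) P
  rw [e]
  exact hP

variable [IsAlgClosed k]

/-- The height does not change if all functions are multiplied by the same function. -/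
theorem ht_smul [Finite ι] {g : ι → K} (hg : g ≠ 0) {f : K} (hf : f ≠ 0) :
    ht k (fun i => f * g i) = ht k g := by
  unfold ht
  have h1 : (fun P : Place k K => mo P (fun i => f * g i)) = fun P => P.ord f + mo P g := by
    funext P
    exact mo_smul P hg hf
  rw [h1, finsum_add_distrib (finite_support f) (mo_supp g), sum_ord, zero_add]

/-- The height of a finite set of places that contains all zeros and poles. -/
theorem ht_finset [Finite ι] (g : ι → K) (T : Finset (Place k K)) (hT : ∀ P, mo P g ≠ 0 → P ∈ T) :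
    ht k g = - ∑ P ∈ T, mo P g := by
  unfold ht
  rw [finsum_eq_sum_of_support_subset (s := T)]
  intro P hP
  exact hT P hP

theorem ht_le_of_comb [Finite ι] {κ : Type} [Finite κ] {g : ι → K} {u : κ → K}
    (hu : u ≠ 0) (h : ∀ j, ∃ a : ι → k, u j = ∑ᶠ i, algebraMap k K (a i) * g i) :
    ht k u ≤ ht k g := by
  classical
  set T : Finset (Place k K) := (mo_supp (k := k) g).toFinset ∪ (mo_supp (k := k) u).toFinset
  rw [ht_finset g T (by intro P hP; simp [T, hP]), ht_finset u T (by intro P hP; simp [T, hP])]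
  exact neg_le_neg (Finset.sum_le_sum fun P _ => mo_le_of_comb P hu h)

/-- The height is nonnegative. -/
theorem ht_nonneg [Finite ι] (g : ι → K) : 0 ≤ ht k g := by
  classical
  by_cases hg : g = 0
  · rw [hg]
    unfold ht
    simp [mo_zero]
  obtain ⟨i, hi⟩ := Function.ne_iff.1 hg
  have hi' : g i ≠ 0 := hi
  set T : Finset (Place k K) := (mo_supp (k := k) g).toFinset ∪
    (finite_support (k := k) (g i)).toFinset
  rw [ht_finset g T (by intro P hP; simp [T, hP])]
  have h1 := sum_ord_finset (g i) T (by intro P hP; simp [T, hP])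
  have h2 : ∑ P ∈ T, mo P g ≤ ∑ P ∈ T, P.ord (g i) :=
    Finset.sum_le_sum fun P _ => mo_le P hi'
  omega

end

end Pool.Agent.Y166.DP
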