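import Pool.Agent.Y166.DP.Defs

/-!
# The counting function of a twisted del Pezzo fibration over an elliptic curve
-/

set_option autoImplicit false
set_option linter.unusedSectionVars false

namespace Pool.Agent.Y166.DP

open MvPolynomial FF

section
variable {k K : Type} [Field k] [Field K] [Algebra k K]

/-- The dimension of the irreducible component of the space of sections of height `d` whose cone is
`M`. -/
noncomputable def dimSec {d : ℕ} (M : Set (Idx d → k)) : ℕ := dimA M - 1

/-- The irreducible components of the space of sections of height `d` that do not belong to the
collection `Acc d`. -/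
def Manin (x y : K) (Acc : ∀ d, Set (Set (Idx d → k))) (d : ℕ) : Set (Set (Idx d → k)) :=
  {M | IsComp (cone x y d) M ∧ M ∉ Acc d}

/-- The counting function: the sum of `q ^ dim M` over all Manin components `M` of height at least
one and at most `d`. -/
noncomputable def NN (x y : K) (Acc : ∀ d, Set (Set (Idx d → k))) (q : ℝ) (d : ℕ) : ENNReal :=
  ∑ i ∈ Finset.Icc 1 d, ∑' M : Manin x y Acc i, ENNReal.ofReal q ^ dimSec M.1

end

end Pool.Agent.Y166.DP
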