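import Mathlib
import Pool.Agent.TH145.GH.KL

/-!
# Sections of a twisted isotrivial del Pezzo fibration over an elliptic curve

`B` is the elliptic curve `y ^ 2 = x (x - 1) (x - lam)` over a field `k`, with function field `K`.
The points of the twisted del Pezzo surface `x h ^ 2 = g 0 ^ 4 + g 1 ^ 4 + g 2 ^ 4` of degree two
(in the weighted projective space `P(1,1,1,2)`) over `K` are the sections of the fibration
`(B' × F) / (ℤ / 2) → B`, where `B'` is the étale double cover of `B` given by the square root of
`x`, and `F` is the double cover `w ^ 2 = g 0 ^ 4 + g 1 ^ 4 + g 2 ^ 4` of the projective plane.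
-/

set_option autoImplicit false
set_option linter.unusedSectionVars false

namespace Pool.Agent.Y166.DP

open MvPolynomial FF

section
variable {k K : Type} [Field k] [Field K] [Algebra k K]

/-- `K` is the function field of the elliptic curve `y ^ 2 = x (x - 1) (x - lam)` over `k`. -/
structure Ell (k K : Type) [Field k] [Field K] [Algebra k K] (lam : k) (x y : K) : Prop where
  lam0 : lam ≠ 0
  lam1 : lam ≠ 1
  eqn : y ^ 2 = x * (x - 1) * (x - algebraMap k K lam)
  tr : Transcendental k x
  gen : IntermediateField.adjoin k {x, y} = ⊤

/-- The functions `1, x, y, x ^ 2, x y, x ^ 3, x ^ 2 y, …`. For `j > 0` the `j`-th function has a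
pole of order `j + 1` at the point at infinity of the elliptic curve, and no other poles. -/
def fn {A : Type} [CommRing A] (x y : A) (j : ℕ) : A :=
  if j = 0 then 1 else if j % 2 = 1 then x ^ ((j + 1) / 2) else x ^ ((j - 2) / 2) * y

/-- The function with the coordinates `c`. The functions of this form are the functions whose only
pole is the point at infinity, of order at most `N` (if `N > 0`). -/
def fsum (x y : K) {N : ℕ} (c : Fin N → k) : K := ∑ j, algebraMap k K (c j) * fn x y j

/-- The indices of the coordinates of the triple of functions `g` and of the function `x h`. -/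
abbrev Idx (d : ℕ) : Type := (Fin 3 × Fin (d + 1)) ⊕ Fin (2 * d + 3)

/-- The triple of functions with the coordinates `c`, with poles of order at most `d + 1` at the
point at infinity and no other poles. -/
def gv (x y : K) {d : ℕ} (c : Idx d → k) : Fin 3 → K := fun i => fsum x y fun j => c (.inl (i, j))

/-- The function `x h` with the coordinates `c`. -/
def xh (x y : K) {d : ℕ} (c : Idx d → k) : K := fsum x y fun j => c (.inr j)

/-- The Fermat quartic form. -/
def quart (g : Fin 3 → K) : K := g 0 ^ 4 + g 1 ^ 4 + g 2 ^ 4

/-- The minimum of the orders of the nonzero functions `g i` at the place `P`. -/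
noncomputable def mo {ι : Type} (P : Place k K) (g : ι → K) : ℤ :=
  sInf {n | ∃ i, g i ≠ 0 ∧ P.ord (g i) = n}

variable (k) in
/-- The height of the point `(g i)` of a projective space over the function field `K`, which is the
degree of the corresponding morphism from the projective curve with function field `K` to the
projective space. -/
noncomputable def ht {ι : Type} (g : ι → K) : ℤ := - ∑ᶠ P : Place k K, mo P g

/-- The cone over the space of the sections of height `d`: triples of functions `g` of height `d`
in the space of functions with poles only at infinity, of order at most `d + 1`, together with a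
function `h` with `x h ^ 2 = g 0 ^ 4 + g 1 ^ 4 + g 2 ^ 4`. -/
def cone (x y : K) (d : ℕ) : Set (Idx d → k) :=
  {c | gv x y c ≠ 0 ∧ xh x y c ^ 2 = x * quart (gv x y c) ∧ ht k (gv x y c) = d}

/-- The ideal of the polynomials that vanish on the set `M`. -/
def van {σ : Type} (M : Set (σ → k)) : Ideal (MvPolynomial σ k) where
  carrier := {P | ∀ c ∈ M, eval c P = 0}
  zero_mem' := fun c _ => map_zero _
  add_mem' := fun hp hq c hc => by rw [map_add, hp c hc, hq c hc, add_zero]
  smul_mem' := fun p q hq c hc => by rw [smul_eq_mul, map_mul, hq c hc, mul_zero]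

/-- The subset `M` of the affine space is irreducible for the Zariski topology. -/
def IsIrr {σ : Type} (M : Set (σ → k)) : Prop := (van M).IsPrime

/-- `M` is an irreducible component of the subset `W` of the affine space. -/
def IsComp {σ : Type} (W M : Set (σ → k)) : Prop :=
  M ⊆ W ∧ IsIrr M ∧ ∀ M' : Set (σ → k), M' ⊆ W → IsIrr M' → M ⊆ M' → M' = M

/-- The dimension of the irreducible subset `M` of the affine space: the transcendence degree of the
coordinate ring of its closure. -/
noncomputable def dimA {σ : Type} (M : Set (σ → k)) : ℕ :=
  Cardinal.toNat (Algebra.trdeg k (MvPolynomial σ k ⧸ van M))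

/-- All the sections in `M` are contained in one surface `Ψ (g 0, g 1, g 2) = 0`. -/
def InSurface (x y : K) {d : ℕ} (M : Set (Idx d → k)) : Prop :=
  ∃ (n : ℕ) (Ψ : MvPolynomial (Fin 3) K), Ψ.IsHomogeneous n ∧ Ψ ≠ 0 ∧
    ∀ c ∈ M, eval (gv x y c) Ψ = 0

/-- The lift of derivation `D` of `k` to `K` is `D'`. -/
def Lifts (D : Derivation ℤ k k) (D' : Derivation ℤ K K) : Prop :=
  ∀ c : k, D' (algebraMap k K c) = algebraMap k K (D c)

/-- The determinant of the functions `g` and their derivatives with respect to two derivations. -/
noncomputable def wr (D₁ D₂ : K → K) (g : Fin 3 → K) : K :=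
  (Matrix.of ![g, fun i => D₁ (g i), fun i => D₂ (g i)]).det

/-- The derivative of `x (x - 1) (x - lam)`. -/
def cub' (lam : k) (x : K) : K := 3 * x ^ 2 - 2 * (1 + algebraMap k K lam) * x + algebraMap k K lam

end

section
variable (k : Type) [Field k] (lam : k)

/-- The elliptic curve `y ^ 2 = x (x - 1) (x - lam)`. -/
def crv : WeierstrassCurve.Affine k := ⟨0, -(1 + lam), 0, lam, 0⟩

/-- The function field of the elliptic curve `y ^ 2 = x (x - 1) (x - lam)`. -/
abbrev KB : Type := (crv k lam).FunctionField

/-- The coordinate function `x`. -/
noncomputable def xB : KB k lam :=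
  algebraMap (crv k lam).CoordinateRing (KB k lam)
    (WeierstrassCurve.Affine.CoordinateRing.mk (crv k lam) (Polynomial.C Polynomial.X))

/-- The coordinate function `y`. -/
noncomputable def yB : KB k lam :=
  algebraMap (crv k lam).CoordinateRing (KB k lam)
    (WeierstrassCurve.Affine.CoordinateRing.mk (crv k lam) Polynomial.X)

end

end Pool.Agent.Y166.DP
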