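import Pool.Agent.Y166.DP.Stm

/-! Polynomial conditions on the coordinates, and derivatives of functions with given
coordinates. -/

set_option autoImplicit false
set_option linter.unusedSectionVars false

namespace Pool.Agent.Y166.DP

open MvPolynomial FF Pool.Agent.W603.LV Pool.Agent.TH145.GH

section
variable {k K : Type} [Field k] [Field K] [Algebra k K]

/-- A polynomial condition with coefficients in `K` on the points over `k` is equivalent to
polynomial conditions with coefficients in `k`. -/
theorem poly_descent {σ : Type} (Θ : MvPolynomial σ K) :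
    ∃ (n : ℕ) (b : Fin n → K) (F : Fin n → MvPolynomial σ k), LinearIndependent k b ∧
      Θ = ∑ l, C (b l) * map (algebraMap k K) (F l) := by
  classical
  let V : Submodule k K := Submodule.span k (Set.range fun m : Θ.support => Θ.coeff m)
  haveI hfd : FiniteDimensional k V :=
    FiniteDimensional.span_of_finite k (Set.finite_range _)
  let b := Module.finBasis k V
  have hmem : ∀ m : σ →₀ ℕ, Θ.coeff m ∈ V := by
    intro m
    by_cases hm : m ∈ Θ.support
    · exact Submodule.subset_span ⟨⟨m, hm⟩, rfl⟩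
    · rw [notMem_support_iff.1 hm]; exact zero_mem _
  refine ⟨Module.finrank k V, fun l => (b l : K),
    fun l => ∑ m ∈ Θ.support, monomial m (b.repr ⟨Θ.coeff m, hmem m⟩ l), ?_, ?_⟩
  · have := b.linearIndependent.map' V.subtype (Submodule.ker_subtype V)
    exact this
  · ext m
    rw [coeff_sum]
    by_cases hm : m ∈ Θ.support
    · have h1 : ∀ l, coeff m (C (b l : K) * map (algebraMap k K)
          (∑ m ∈ Θ.support, monomial m (b.repr ⟨Θ.coeff m, hmem m⟩ l))) =
          (b.repr ⟨Θ.coeff m, hmem m⟩ l) • (b l : K) := by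
        intro l
        rw [coeff_C_mul, coeff_map, coeff_sum]
        simp only [coeff_monomial]
        rw [Finset.sum_ite_eq' Θ.support m, if_pos hm, Algebra.smul_def, mul_comm]
      rw [Finset.sum_congr rfl fun l _ => h1 l]
      have h2 := congrArg (Subtype.val : V → K) (b.sum_repr ⟨Θ.coeff m, hmem m⟩)
      have h3 : Θ.coeff m = ((∑ l, (b.repr ⟨Θ.coeff m, hmem m⟩) l • b l : V) : K) := h2.symm
      refine h3.trans ?_
      rw [Submodule.coe_sum]
      rfl
    · rw [notMem_support_iff.1 hm]
      symm
      refine Finset.sum_eq_zero fun l _ => ?_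
      rw [coeff_C_mul, coeff_map, coeff_sum]
      simp only [coeff_monomial]
      rw [Finset.sum_ite_eq' Θ.support m, if_neg hm, map_zero, mul_zero]

/-- If the value of `Θ` vanishes on `M`, then it vanishes at all common zeros of the ideal of
`M`. -/
theorem poly_zero {σ : Type} (Θ : MvPolynomial σ K) (M : Set (σ → k))
    (h : ∀ c ∈ M, eval (fun s => algebraMap k K (c s)) Θ = 0) (ξ : σ → k)
    (hξ : ∀ F ∈ van M, eval ξ F = 0) : eval (fun s => algebraMap k K (ξ s)) Θ = 0 := by
  obtain ⟨n, b, F, hb, rfl⟩ := poly_descent (k := k) Θ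
  have hev : ∀ c : σ → k, eval (fun s => algebraMap k K (c s))
      (∑ l, C (b l) * map (algebraMap k K) (F l)) = ∑ l, (eval c (F l)) • b l := by
    intro c
    rw [map_sum]
    refine Finset.sum_congr rfl fun l _ => ?_
    rw [map_mul, eval_C, eval_map, Algebra.smul_def, mul_comm]
    congr 1
    exact (eval₂_comp (algebraMap k K) c (F l)).symm
  have hF : ∀ l, F l ∈ van M := by
    intro l c hc
    have h1 := h c hc
    rw [hev] at h1
    exact (Fintype.linearIndependent_iff.1 hb _ h1) l
  rw [hev]
  refine Finset.sum_eq_zero fun l _ => ?_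
  rw [hξ _ (hF l), zero_smul]

/-- The function with indeterminate coordinates. -/
noncomputable def fpoly {σ : Type} (x y : K) {N : ℕ} (e : Fin N → σ) : MvPolynomial σ K :=
  ∑ j, X (e j) * C (fn x y j)

theorem eval_fpoly {σ : Type} (x y : K) {N : ℕ} (e : Fin N → σ) (c : σ → k) :
    eval (fun s => algebraMap k K (c s)) (fpoly x y e) = fsum x y fun j => c (e j) := by
  unfold fpoly fsum
  rw [map_sum]
  refine Finset.sum_congr rfl fun j _ => ?_
  rw [map_mul, eval_X, eval_C]

/-- The equation of the cone is a polynomial condition. -/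
theorem cone_closed (x y : K) (d : ℕ) (M : Set (Idx d → k))
    (h : ∀ c ∈ M, xh x y c ^ 2 = x * quart (gv x y c)) (ξ : Idx d → k)
    (hξ : ∀ F ∈ van M, eval ξ F = 0) : xh x y ξ ^ 2 = x * quart (gv x y ξ) := by
  set Θ : MvPolynomial (Idx d) K := (fpoly x y fun j => Sum.inr j) ^ 2 - C x *
    ((fpoly x y fun j => Sum.inl (0, j)) ^ 4 + (fpoly x y fun j => Sum.inl (1, j)) ^ 4 +
      (fpoly x y fun j => Sum.inl (2, j)) ^ 4) with hΘ
  have hev : ∀ c : Idx d → k, eval (fun s => algebraMap k K (c s)) Θ =
      xh x y c ^ 2 - x * quart (gv x y c) := by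
    intro c
    rw [hΘ, map_sub, map_mul, map_add, map_add, map_pow, map_pow, map_pow, map_pow, eval_C,
      eval_fpoly, eval_fpoly, eval_fpoly, eval_fpoly]
    rfl
  have h1 := poly_zero Θ M (fun c hc => by rw [hev, h c hc, sub_self]) ξ hξ
  rw [hev] at h1
  exact sub_eq_zero.1 h1

theorem inl_ne_zero' {x y : K} {d : ℕ} {c : Idx d → k} (h : gv x y c ≠ 0) :
    (fun p => c (.inl p)) ≠ 0 := by
  intro h0
  apply h
  funext i
  have h1 : (fun j => c (Sum.inl (i, j))) = 0 := by
    funext j
    exact congrFun h0 (i, j)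
  change fsum x y (fun j => c (Sum.inl (i, j))) = 0
  rw [h1]
  unfold fsum
  refine Finset.sum_eq_zero fun j _ => ?_
  rw [Pi.zero_apply, map_zero, zero_mul]

theorem y_of_x [CharZero k] {lam : k} {x y : K} (hE : Ell k K lam x y) {D : Derivation ℤ k k}
    {D' : Derivation ℤ K K} (h : Lifts D D') (hlam : D lam = 0) (hx : D' x = 0) : D' y = 0 := by
  have hchar : CharZero K := charZero_of_injective_algebraMap (algebraMap k K).injective
  have hy0 : y ≠ 0 := by
    intro h0
    have h1 := hE.eqn
    rw [h0] at h1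
    have h2 : x * (x - 1) * (x - algebraMap k K lam) = 0 := by rw [← h1]; ring
    rcases mul_eq_zero.1 h2 with h2 | h2
    · rcases mul_eq_zero.1 h2 with h2 | h2
      · exact hE.tr (h2 ▸ isAlgebraic_zero)
      · apply hE.tr
        rw [sub_eq_zero.1 h2]
        exact isAlgebraic_one
    · apply hE.tr
      rw [sub_eq_zero.1 h2]
      exact isAlgebraic_algebraMap lam
  have h1 := congrArg D' hE.eqn
  rw [D'.leibniz_pow] at h1
  simp only [D'.leibniz, map_sub, hx, h lam, hlam, map_zero, D'.map_one_eq_zero, smul_eq_mul,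
    mul_zero, sub_zero, add_zero, zero_add, nsmul_eq_mul] at h1
  have h2 : (2 : K) * y * D' y = 0 := by
    push_cast at h1
    linear_combination h1
  rcases mul_eq_zero.1 h2 with h3 | h3
  · exact absurd h3 (mul_ne_zero two_ne_zero hy0)
  · exact h3

theorem D_fn {x y : K} {D' : Derivation ℤ K K} (hx : D' x = 0) (hy : D' y = 0) (j : ℕ) :
    D' (fn x y j) = 0 := by
  unfold fn
  split_ifs
  · exact D'.map_one_eq_zero
  · rw [D'.leibniz_pow, hx]; simp
  · rw [D'.leibniz, D'.leibniz_pow, hx, hy]; simp

theorem D_fsum {x y : K} {D : Derivation ℤ k k} {D' : Derivation ℤ K K} (h : Lifts D D')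
    (hx : D' x = 0) (hy : D' y = 0) {N : ℕ} (c : Fin N → k) :
    D' (fsum x y c) = fsum x y fun j => D (c j) := by
  unfold fsum
  rw [map_sum]
  refine Finset.sum_congr rfl fun j _ => ?_
  rw [D'.leibniz, h, D_fn hx hy]
  simp [mul_comm]

end

end Pool.Agent.Y166.DP
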