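import Pool.Agent.Y166.DP.Odd
import Pool.Agent.Y166.DP.Poly

/-! A point of even height over a large field. -/

set_option autoImplicit false
set_option linter.unusedSectionVars false

namespace Pool.Agent.Y166.DP

open MvPolynomial FF Pool.Agent.W603.LV Pool.Agent.TH145.GH

section
variable {k K : Type} [Field k] [Field K] [Algebra k K] [CharZero k] [IsFF k K] [IsAlgClosed k]

theorem r0_fsum (x y : K) (α β γ : k) {m : ℕ} (r : Fin m → k) :
    r0 x y α β γ r = fsum x y (Fin.cons (-∑ j, r j * fn (px α β γ) (py α β γ) (j + 1)) r :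
      Fin (m + 1) → k) := by
  unfold r0 fsum
  rw [Fin.sum_univ_succ]
  simp only [Fin.cons_zero, Fin.cons_succ, Fin.val_succ, Fin.val_zero]
  simp only [mul_sub, Finset.sum_sub_distrib, map_neg, map_sum, map_mul]
  have : fn x y 0 = 1 := by simp [fn]
  rw [this]
  ring

theorem r1_fsum (x y : K) (α β γ : k) {m : ℕ} (r : Fin m → k) :
    r1 x y α β γ r = fsum x y (Fin.cons 0 (Fin.cons
      (-∑ j, r j * (fn (px α β γ) (py α β γ) (j + 2) / px α β γ)) r) : Fin (m + 2) → k) := by
  unfold r1 fsum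
  rw [Fin.sum_univ_succ, Fin.sum_univ_succ]
  simp only [Fin.cons_zero, Fin.cons_succ, Fin.val_succ, Fin.val_zero]
  simp only [mul_sub, Finset.sum_sub_distrib, map_neg, map_sum, map_zero, zero_mul, zero_add,
    map_mul]
  have : fn x y 1 = x := by simp [fn]
  rw [this, neg_mul, Finset.sum_mul, neg_add_eq_sub]
  congr 1
  refine Finset.sum_congr rfl fun j _ => ?_
  ring

theorem fsum_ne (hI : StmInf) (hB : StmBasis) {lam : k} {x y : K} (hE : Ell k K lam x y) {N : ℕ}
    {c : Fin N → k} (hc : c ≠ 0) : fsum x y c ≠ 0 := by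
  obtain ⟨o, hox, -, -⟩ := hI k K lam x y hE
  exact fun h => hc ((hB k K lam x y hE o (by rw [hox]; norm_num)).2.1 N c h)

theorem r0_ne (hI : StmInf) (hB : StmBasis) {lam : k} {x y : K} (hE : Ell k K lam x y)
    (α β γ : k) {m : ℕ} {r : Fin m → k} (hr : r ≠ 0) : r0 x y α β γ r ≠ 0 := by
  rw [r0_fsum]
  apply fsum_ne hI hB hE
  intro h
  apply hr
  funext j
  have := congrFun h j.succ
  simpa using this

theorem r1_ne (hI : StmInf) (hB : StmBasis) {lam : k} {x y : K} (hE : Ell k K lam x y)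
    (α β γ : k) {m : ℕ} {r : Fin m → k} (hr : r ≠ 0) : r1 x y α β γ r ≠ 0 := by
  rw [r1_fsum]
  apply fsum_ne hI hB hE
  intro h
  apply hr
  funext j
  have := congrFun h j.succ.succ
  simpa using this

/-- A function whose square has only poles at infinity, of bounded order. -/
theorem poles_of_sq (hI : StmInf) (hB : StmBasis) {lam : k} {x y : K} (hE : Ell k K lam x y)
    {d : ℕ} (g : Fin 3 → K) (h : K) (hh : h ^ 2 = x * quart g)
    (hg : ∀ i, ∃ c : Fin (d + 1) → k, g i = fsum x y c) :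
    ∃ c : Fin (2 * d + 3) → k, h = fsum x y c := by
  obtain ⟨o, hox, hoy, ho⟩ := hI k K lam x y hE
  have hB' := (hB k K lam x y hE o (by rw [hox]; norm_num)).2.2
  have hg' := fun i => (hB' (d + 1) (Nat.succ_pos d) (g i)).2 (hg i)
  rw [← hB' (2 * d + 3) (by omega)]
  have hq : ∀ P : Place k K, ∀ n : ℤ, (∀ i, Ge P n (g i)) → Ge P (4 * n) (quart g) := by
    intro P n hn
    unfold quart
    have h1 : ∀ i, Ge P (4 * n) (g i ^ 4) := fun i => by
      have := (hn i).pow 4
      simpa using this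
    exact ((h1 0).add (h1 1)).add (h1 2)
  have hx : Ge o (-2) x := Or.inr hox.ge
  constructor
  · intro P hP
    have h1 := (ho P hP).1.mul (hq P 0 fun i => (hg' i).1 P hP)
    rw [← hh] at h1
    by_cases h0 : h = 0
    · exact Or.inl h0
    · right
      have h2 := h1.resolve_left (pow_ne_zero 2 h0)
      rw [P.ord_pow] at h2
      push_cast at h2
      omega
  · have h1 := hx.mul (hq o (-((d + 1 : ℕ) : ℤ)) fun i => (hg' i).2)
    rw [← hh] at h1
    by_cases h0 : h = 0
    · exact Or.inl h0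
    · right
      have h2 := h1.resolve_left (pow_ne_zero 2 h0)
      rw [o.ord_pow] at h2
      push_cast at h2 ⊢
      omega

/-- The functions `gg` have coordinates. -/
theorem gg_coord (hI : StmInf) (hB : StmBasis) (hUU : StmUU) {lam : k} {x y : K}
    (hE : Ell k K lam x y) {α β γ : k} (hβ : β ^ 2 = α ^ 2 - 1) (hγ : γ ^ 2 = α ^ 2 - lam)
    (h0 : α * β * γ ≠ 0) (h1 : α * β + α * γ + β * γ ≠ 0) {m : ℕ} (r s : Fin m → k) (τ a ω : k)
    (i : Fin 3) : ∃ c : Fin (2 * m + 1) → k, gg τ a ω (uu x y α β γ r s) i = fsum x y c := by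
  obtain ⟨o, hox, hoy, ho⟩ := hI k K lam x y hE
  have hB' := (hB k K lam x y hE o (by rw [hox]; norm_num)).2.2 (2 * m + 1) (by omega)
  have hu : ∀ i, ∃ c : Fin (2 * m + 1) → k, uu x y α β γ r s i = fsum x y c := by
    intro i
    rw [← hB']
    have := hUU k K lam x y hE o (by rw [hox]; norm_num) α β γ hβ hγ h0 h1 m r s i
    refine ⟨this.1, ?_⟩
    have h2 := this.2.1
    push_cast
    exact h2
  have hadd : ∀ f g : K, (∃ c : Fin (2 * m + 1) → k, f = fsum x y c) →
      (∃ c : Fin (2 * m + 1) → k, g = fsum x y c) →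
      ∃ c : Fin (2 * m + 1) → k, f + g = fsum x y c := by
    rintro _ _ ⟨c, rfl⟩ ⟨c', rfl⟩
    refine ⟨c + c', ?_⟩
    unfold fsum
    rw [← Finset.sum_add_distrib]
    refine Finset.sum_congr rfl fun j _ => ?_
    rw [Pi.add_apply, map_add]; ring
  have hmul : ∀ (b : k) (f : K), (∃ c : Fin (2 * m + 1) → k, f = fsum x y c) →
      ∃ c : Fin (2 * m + 1) → k, algebraMap k K b * f = fsum x y c := by
    rintro b _ ⟨c, rfl⟩
    refine ⟨fun j => b * c j, ?_⟩
    unfold fsum
    rw [Finset.mul_sum]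
    refine Finset.sum_congr rfl fun j _ => ?_
    rw [map_mul]; ring
  obtain ⟨t, ht⟩ : ∃ t, t = (uu x y α β γ r s 1 - uu x y α β γ r s 0) *
    algebraMap k K (3 * τ / ω) := ⟨_, rfl⟩
  have htc : ∃ c : Fin (2 * m + 1) → k, t = fsum x y c := by
    have h2 := hmul (3 * τ / ω) _ (hadd _ _ (hu 1) (hmul (-1) _ (hu 0)))
    have h3 : algebraMap k K (3 * τ / ω) *
        (uu x y α β γ r s 1 + algebraMap k K (-1) * uu x y α β γ r s 0) = t := by
      rw [ht, map_neg, map_one]; ring
    rwa [h3] at h2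
  obtain ⟨s', hs'⟩ : ∃ s', s' = uu x y α β γ r s 0 +
    algebraMap k K ((-2 * (τ ^ 4 - 1) + ω) / (6 * τ)) * t := ⟨_, rfl⟩
  have hsc : ∃ c : Fin (2 * m + 1) → k, s' = fsum x y c := by
    rw [hs']
    exact hadd _ _ (hu 0) (hmul _ _ htc)
  have hgg : gg τ a ω (uu x y α β γ r s) = ![s' + algebraMap k K (τ ^ 3) * t,
      algebraMap k K τ * s' - t, algebraMap k K a * s'] := by
    unfold gg
    rw [hs', ht]
  rw [hgg]
  fin_cases i
  · exact hadd _ _ hsc (hmul _ _ htc)
  · have h2 := hadd _ _ (hmul τ _ hsc) (hmul (-1) _ htc)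
    rw [map_neg, map_one, neg_one_mul, ← sub_eq_add_neg] at h2
    exact h2
  · exact hmul _ _ hsc

end

end Pool.Agent.Y166.DP
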