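import Pool.Agent.Y166.DP.EvenA

/-! A point of even height over a large field: the generic member of the family. -/

set_option autoImplicit false
set_option linter.unusedSectionVars false

namespace Pool.Agent.Y166.DP

open MvPolynomial FF Pool.Agent.W603.LV Pool.Agent.TH145.GH

theorem tne {k₀ k : Type} [Field k₀] [Field k] [Algebra k₀ k] {α : k} (hα : Transcendental k₀ α)
    (p : Polynomial k₀) (hp : p.eval 0 ≠ 0) : Polynomial.aeval α p ≠ 0 := by
  intro h
  apply hp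
  have : p = 0 := (transcendental_iff.1 hα) p h
  rw [this, Polynomial.eval_zero]

/-- The nondegeneracy of the parameters. -/
theorem nondeg {k₀ k : Type} [Field k₀] [Field k] [Algebra k₀ k] {lam : k₀} (hl0 : lam ≠ 0)
    {α β γ : k} (hα : Transcendental k₀ α) (hβ : β ^ 2 = α ^ 2 - 1)
    (hγ : γ ^ 2 = α ^ 2 - algebraMap k₀ k lam) :
    α * β * γ ≠ 0 ∧ α * β + α * γ + β * γ ≠ 0 := by
  have hα0 : α ≠ 0 := by
    rintro rfl
    exact hα isAlgebraic_zero
  have hβ0 : β ≠ 0 := by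
    rintro rfl
    apply tne hα (Polynomial.X ^ 2 - 1) (by simp)
    simp only [map_sub, map_pow, Polynomial.aeval_X, map_one]
    linear_combination -hβ
  have hγ0 : γ ≠ 0 := by
    rintro rfl
    apply tne hα (Polynomial.X ^ 2 - Polynomial.C lam) (by simp [hl0])
    simp only [map_sub, map_pow, Polynomial.aeval_X, Polynomial.aeval_C]
    linear_combination -hγ
  refine ⟨mul_ne_zero (mul_ne_zero hα0 hβ0) hγ0, fun h => ?_⟩
  have e1 : 2 * α ^ 2 * (β * γ) = β ^ 2 * γ ^ 2 - α ^ 2 * (β ^ 2 + γ ^ 2) := by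
    have h1 : α * (β + γ) = -(β * γ) := by linear_combination h
    have h2 : (α * (β + γ)) ^ 2 = (β * γ) ^ 2 := by rw [h1]; ring
    linear_combination h2
  have e2 : 4 * α ^ 4 * (β ^ 2) * (γ ^ 2) = ((β ^ 2) * (γ ^ 2) - α ^ 2 * (β ^ 2 + γ ^ 2)) ^ 2 := by
    rw [← e1]; ring
  rw [hβ, hγ] at e2
  apply tne hα (3 * Polynomial.X ^ 8 - 4 * (1 + Polynomial.C lam) * Polynomial.X ^ 6 +
    6 * Polynomial.C lam * Polynomial.X ^ 4 - Polynomial.C lam ^ 2) (by simp [hl0])
  simp only [map_sub, map_add, map_mul, map_pow, map_one, map_ofNat, Polynomial.aeval_X,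
    Polynomial.aeval_C]
  linear_combination e2

section
variable {k K : Type} [Field k] [Field K] [Algebra k K]

theorem D_ratio_zero {D' : Derivation ℤ K K} {f g : K} (hf : D' f = 0) (hg : D' g = 0) :
    D' (f / g) = 0 := by
  by_cases h0 : g = 0
  · rw [h0, div_zero, map_zero]
  have h1 : D' (f / g * g) = 0 := by rw [div_mul_cancel₀ _ h0, hf]
  rw [D'.leibniz, hg, smul_zero, zero_add, smul_eq_mul] at h1
  exact (mul_eq_zero.1 h1).resolve_left h0

theorem D_px {D : Derivation ℤ k k} {α β γ : k} (hα : D α = 0) (hβ : D β = 0) (hγ : D γ = 0) :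
    D (px α β γ) = 0 ∧ D (py α β γ) = 0 := by
  unfold px py
  simp [D.leibniz, hα, hβ, hγ]

theorem D_fn' {D : Derivation ℤ k k} {a b : k} (ha : D a = 0) (hb : D b = 0) (j : ℕ) :
    D (fn a b j) = 0 := by
  unfold fn
  split_ifs
  · exact D.map_one_eq_zero
  · rw [D.leibniz_pow, ha]; simp
  · rw [D.leibniz, D.leibniz_pow, ha, hb]; simp

theorem D_phi {D : Derivation ℤ k k} {D' : Derivation ℤ K K} (h : Lifts D D') {x y : K}
    (hx : D' x = 0) (hy : D' y = 0) {α β γ : k} (hα : D α = 0) (hβ : D β = 0) (hγ : D γ = 0) :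
    D' (phi x y α β γ) = 0 := by
  unfold phi
  have h1 : D (α * β * γ) = 0 := by simp [D.leibniz, hα, hβ, hγ]
  have h2 : D (α + β + γ) = 0 := by simp [hα, hβ, hγ]
  have h3 : D (α ^ 2) = 0 := by simp [D.leibniz_pow, hα]
  have h4 : D' (x - algebraMap k K (α ^ 2)) = 0 := by rw [map_sub, hx, h, h3, map_zero, sub_zero]
  apply D_ratio_zero _ h4
  rw [map_sub, map_add, D'.leibniz, h4, h, h, h1, h2, hy]
  simp

theorem D_beta [CharZero k] {D : Derivation ℤ k k} {α β c : k} (hβ : β ^ 2 = α ^ 2 - c)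
    (h0 : β ≠ 0) (hα : D α = 0) (hc : D c = 0) : D β = 0 := by
  have h1 := congrArg D hβ
  rw [D.leibniz_pow, map_sub, D.leibniz_pow, hα, hc] at h1
  simp only [smul_eq_mul, nsmul_eq_mul, mul_zero, sub_zero] at h1
  rcases mul_eq_zero.1 h1 with h2 | h2
  · norm_num at h2
  · rcases mul_eq_zero.1 h2 with h3 | h3
    · exact absurd h3 (pow_ne_zero _ h0)
    · exact h3

theorem D_r0 {D : Derivation ℤ k k} {D' : Derivation ℤ K K} (h : Lifts D D') {x y : K}
    (hx : D' x = 0) (hy : D' y = 0) {α β γ : k} (hα : D α = 0) (hβ : D β = 0) (hγ : D γ = 0)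
    {m : ℕ} (r : Fin m → k) :
    D' (r0 x y α β γ r) = r0 x y α β γ fun j => D (r j) := by
  unfold r0
  rw [map_sum]
  refine Finset.sum_congr rfl fun j _ => ?_
  obtain ⟨h1, h2⟩ := D_px hα hβ hγ
  rw [D'.leibniz, map_sub, D_fn hx hy, h, h, D_fn' h1 h2]
  simp [mul_comm]

theorem D_r1 {D : Derivation ℤ k k} {D' : Derivation ℤ K K} (h : Lifts D D') {x y : K}
    (hx : D' x = 0) (hy : D' y = 0) {α β γ : k} (hα : D α = 0) (hβ : D β = 0) (hγ : D γ = 0)
    {m : ℕ} (r : Fin m → k) :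
    D' (r1 x y α β γ r) = r1 x y α β γ fun j => D (r j) := by
  unfold r1
  rw [map_sum]
  refine Finset.sum_congr rfl fun j _ => ?_
  obtain ⟨h1, h2⟩ := D_px hα hβ hγ
  have h3 : D (fn (px α β γ) (py α β γ) (↑j + 2) / px α β γ) = 0 :=
    D_ratio_zero (D_fn' h1 h2 _) h1
  have h4 : D' (fn x y (↑j + 2) - algebraMap k K
      (fn (px α β γ) (py α β γ) (↑j + 2) / px α β γ) * x) = 0 := by
    rw [map_sub, D_fn hx hy, D'.leibniz, hx, h, h3]
    simp
  rw [D'.leibniz, h4, h]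
  simp [mul_comm]

theorem r_zero (x y : K) (α β γ : k) (m : ℕ) :
    r0 x y α β γ (0 : Fin m → k) = 0 ∧ r1 x y α β γ (0 : Fin m → k) = 0 := by
  unfold r0 r1
  simp

end

end Pool.Agent.Y166.DP
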