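import Pool.Agent.Y166.DP.EvenB

/-! A point of even height over a large field: the generic member of the family. -/

set_option autoImplicit false
set_option linter.unusedSectionVars false

namespace Pool.Agent.Y166.DP

open MvPolynomial FF Pool.Agent.W603.LV Pool.Agent.TH145.GH

/-- The indices of the parameters. -/
abbrev Par (m : ℕ) : Type := Fin 2 ⊕ (Fin m ⊕ Fin m)

theorem point_main (hI : StmInf) (hB : StmBasis) (hExt : StmExt) (hDual : StmDual)
    (hPhi : StmPhi) (hUU : StmUU) (hHt : StmHt) (hInj : StmInj) (hTan : StmTan) (hMov : StmMov)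
    {k₀ k K : Type} [Field k₀] [Field k] [Field K] [Algebra k K] [Algebra k₀ k] [CharZero k₀]
    [CharZero k] [IsAlgClosed k] [IsFF k K] (lam : k₀) (x y : K)
    (hE : Ell k K (algebraMap k₀ k lam) x y) (m : ℕ) (hm : 2 ≤ m) (z : Par m → k)
    (hz : AlgebraicIndependent k₀ z) :
    ∃ ξ : Idx (2 * m) → k, ξ ∈ cone x y (2 * m) ∧
      (∀ D : Derivation k₀ k k, (∀ s, D (ξ s) = 0) → ∀ i, D (z i) = 0) ∧
      ∃ D₁ D₂ : Derivation ℤ K K,
        ((∀ c : k₀, D₁ (algebraMap k K (algebraMap k₀ k c)) = 0) ∧ D₁ x = 0 ∧ D₁ y = 0) ∧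
        ((∀ c : k₀, D₂ (algebraMap k K (algebraMap k₀ k c)) = 0) ∧ D₂ x = 0 ∧ D₂ y = 0) ∧
        wr D₁ D₂ (gv x y ξ) ≠ 0 := by
  classical
  have hcK : CharZero K := charZero_of_injective_algebraMap (algebraMap k K).injective
  have hl0 : lam ≠ 0 := by
    rintro rfl
    exact hE.lam0 (map_zero _)
  -- the parameters
  obtain ⟨τ, hτ⟩ : ∃ τ, τ = z (.inl 0) := ⟨_, rfl⟩
  obtain ⟨α, hα⟩ : ∃ α, α = z (.inl 1) := ⟨_, rfl⟩
  obtain ⟨r, hr⟩ : ∃ r : Fin m → k, r = fun j => z (.inr (.inl j)) := ⟨_, rfl⟩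
  obtain ⟨s, hs⟩ : ∃ s : Fin m → k, s = fun j => z (.inr (.inr j)) := ⟨_, rfl⟩
  have hτt : Transcendental k₀ τ := hτ ▸ hz.transcendental _
  have hαt : Transcendental k₀ α := hα ▸ hz.transcendental _
  obtain ⟨β, hβ⟩ := IsAlgClosed.exists_pow_nat_eq (α ^ 2 - 1) (n := 2) (by norm_num)
  obtain ⟨γ, hγ⟩ := IsAlgClosed.exists_pow_nat_eq (α ^ 2 - algebraMap k₀ k lam) (n := 2)
    (by norm_num)
  obtain ⟨a, ha⟩ := IsAlgClosed.exists_pow_nat_eq (-(1 + τ ^ 4)) (n := 4) (by norm_num)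
  obtain ⟨ω, hω⟩ := IsAlgClosed.exists_pow_nat_eq (-2 * (τ ^ 8 + τ ^ 4 + 1)) (n := 2) (by norm_num)
  obtain ⟨κ, hκ⟩ := IsAlgClosed.exists_pow_nat_eq (6 * τ ^ 2 * (1 + τ ^ 4)) (n := 2) (by norm_num)
  obtain ⟨hn1, hn2⟩ := nondeg hl0 hαt hβ hγ
  have hτ0 : τ ≠ 0 := by
    rintro h
    exact hτt (h ▸ isAlgebraic_zero)
  have ha0 : a ≠ 0 := by
    rintro rfl
    apply tne hτt (1 + Polynomial.X ^ 4) (by simp)
    simp only [map_add, map_pow, Polynomial.aeval_X, map_one]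
    linear_combination ha
  have hω0 : ω ≠ 0 := by
    rintro rfl
    apply tne hτt (Polynomial.X ^ 8 + Polynomial.X ^ 4 + 1) (by simp)
    simp only [map_add, map_pow, Polynomial.aeval_X, map_one]
    linear_combination (-1 / 2 : k) * (-hω)
  have hα0 : α ≠ 0 := left_ne_zero_of_mul (left_ne_zero_of_mul hn1)
  have hβ0 : β ≠ 0 := right_ne_zero_of_mul (left_ne_zero_of_mul hn1)
  have hγ0 : γ ≠ 0 := right_ne_zero_of_mul hn1
  have hm0 : 0 < m := by omega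
  have hr0 : r ≠ 0 := by
    intro h
    have h1 := congrFun h ⟨0, hm0⟩
    rw [hr] at h1
    change z (.inr (.inl ⟨0, hm0⟩)) = 0 at h1
    exact hz.transcendental (.inr (.inl ⟨0, hm0⟩)) (by rw [h1]; exact isAlgebraic_zero)
  have hs0 : s ≠ 0 := by
    intro h
    have h1 := congrFun h ⟨0, hm0⟩
    rw [hs] at h1
    change z (.inr (.inr ⟨0, hm0⟩)) = 0 at h1
    exact hz.transcendental (.inr (.inr ⟨0, hm0⟩)) (by rw [h1]; exact isAlgebraic_zero)
  -- derivations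
  obtain ⟨D, hD⟩ := hDual k₀ k (Par m) z hz
  have hDl : ∀ i, (D i).restrictScalars ℤ (algebraMap k₀ k lam) = 0 := fun i =>
    (D i).map_algebraMap lam
  obtain ⟨u, hu⟩ : ∃ u, u = uu x y α β γ r s := ⟨_, rfl⟩
  have hht : ht k u = 2 * m := by
    rw [hu]
    refine hHt k K _ x y hE α β γ hβ hγ hn1 hn2 m r s hm hr0 hs0 fun j => ?_
    refine ⟨(D (.inr (.inr j))).restrictScalars ℤ, hDl _, ?_, fun i => ?_, fun i => ?_⟩
    · change D (.inr (.inr j)) α = 0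
      rw [hα, hD]; simp
    · change D (.inr (.inr j)) (r i) = 0
      rw [hr, hD]; simp
    · change D (.inr (.inr j)) (s i) = _
      rw [hs, hD]
      simp [eq_comm]
  obtain ⟨hq, hhtg⟩ := hTan k K τ a ω ha hω hτ0 hω0 ha0 u
  obtain ⟨hmov1, hmov2⟩ := hMov k K τ a ω ha hω hτ0 hω0 ha0 u (by rw [hht]; positivity)
  -- the coordinates
  have hcg : ∀ i, ∃ c : Fin (2 * m + 1) → k, gg τ a ω u i = fsum x y c := by
    intro i
    rw [hu]
    exact gg_coord hI hB hUU hE hβ hγ hn1 hn2 r s τ a ω i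
  choose cg hcg' using hcg
  have hx0 : x ≠ 0 := fun h => hE.tr (h ▸ isAlgebraic_zero)
  obtain ⟨o, hox, hoy, ho⟩ := hI k K _ x y hE
  obtain ⟨p, p', -, -, -, -, -, -, -, hphi0, -⟩ := hPhi k K _ x y hE o (by rw [hox]; norm_num)
    α β γ hβ hγ hn1 hn2
  obtain ⟨H, hH⟩ : ∃ H, H = algebraMap k K κ * ((u 1 - u 0) * algebraMap k K (3 * τ / ω)) *
    r0 x y α β γ r * r1 x y α β γ s / phi x y α β γ := ⟨_, rfl⟩
  have hu0 : u 0 = r0 x y α β γ r ^ 2 / phi x y α β γ := by rw [hu]; rfl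
  have hu1 : u 1 = r1 x y α β γ s ^ 2 / (x * phi x y α β γ) := by rw [hu]; rfl
  have hHq : H ^ 2 = x * quart (gg τ a ω u) := by
    rw [hq, hH, ← hκ, map_pow]
    generalize hU : (u 1 - u 0) * algebraMap k K (3 * τ / ω) = U
    rw [hu0, hu1]
    field_simp
  obtain ⟨cH, hcH⟩ := poles_of_sq hI hB hE (d := 2 * m) (gg τ a ω u) H hHq
    (fun i => ⟨cg i, hcg' i⟩)
  let ξ : Idx (2 * m) → k := Sum.elim (fun p => cg p.1 p.2) cH
  have hgv : gv x y ξ = gg τ a ω u := by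
    funext i
    exact (hcg' i).symm
  have hxh : xh x y ξ = H := hcH.symm
  have hgne : gg τ a ω u ≠ 0 := by
    intro h0
    have h1 : ht k (gg τ a ω u) = 0 := by
      rw [h0]
      unfold ht
      simp [mo_zero]
    rw [hhtg, hht] at h1
    omega
  have hD0 : ∀ (D : Derivation k₀ k k) (D' : Derivation ℤ K K), Lifts (D.restrictScalars ℤ) D' →
      D' x = 0 → D' y = 0 := fun D D' h h' => y_of_x hE h (D.map_algebraMap lam) h'
  refine ⟨ξ, ⟨?_, ?_, ?_⟩, ?_, ?_⟩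
  · rw [hgv]; exact hgne
  · rw [hgv, hxh]; exact hHq
  · rw [hgv, hhtg, hht]; push_cast; ring
  · intro F hF
    obtain ⟨F', hF', hF'x⟩ := (hExt k K x hE.tr).1 (F.restrictScalars ℤ)
    have hF'y := hD0 F F' hF' hF'x
    have h1 : ∀ i, F' (gg τ a ω u i) = 0 := by
      intro i
      rw [hcg' i, D_fsum hF' hF'x hF'y]
      have : (fun j => (F.restrictScalars ℤ) (cg i j)) = 0 := by
        funext j
        exact hF (.inl (i, j))
      rw [this]
      unfold fsum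
      simp
    obtain ⟨h2, h3⟩ := hmov1 _ F' hF' h1
    obtain ⟨h4, h5, h6⟩ := hInj k K _ x y hE α β γ hβ hγ hn1 hn2 m r s (by omega) hr0 hs0
      (by rw [← hu]; exact hht) _ F' (F.map_algebraMap lam) hF' hF'x (fun i => by
        rw [← hu]; exact h3 i)
    rintro (i | i | i)
    · fin_cases i
      · have : F (z (.inl 0)) = 0 := by rw [← hτ]; exact h2
        exact this
      · have : F (z (.inl 1)) = 0 := by rw [← hα]; exact h4
        exact this
    · have := h5 i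
      rw [hr] at this
      exact this
    · have := h6 i
      rw [hs] at this
      exact this
  · obtain ⟨E₁, hE₁⟩ : ∃ E₁, E₁ = D (.inl 0) := ⟨_, rfl⟩
    obtain ⟨E₂, hE₂⟩ : ∃ E₂, E₂ = D (.inr (.inl ⟨0, hm0⟩)) := ⟨_, rfl⟩
    obtain ⟨D₁, hD₁, hD₁x⟩ := (hExt k K x hE.tr).1 (E₁.restrictScalars ℤ)
    obtain ⟨D₂, hD₂, hD₂x⟩ := (hExt k K x hE.tr).1 (E₂.restrictScalars ℤ)
    have hD₂y := hD0 _ D₂ hD₂ hD₂x
    have hE₂α : E₂ α = 0 := by rw [hE₂, hα, hD]; simp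
    have hE₂β : E₂ β = 0 := D_beta (D := E₂.restrictScalars ℤ) hβ hβ0 hE₂α
      (E₂.restrictScalars ℤ).map_one_eq_zero
    have hE₂γ : E₂ γ = 0 := D_beta (D := E₂.restrictScalars ℤ) hγ hγ0 hE₂α (E₂.map_algebraMap lam)
    have hφ : D₂ (phi x y α β γ) = 0 := D_phi hD₂ hD₂x hD₂y hE₂α hE₂β hE₂γ
    have hr1 : D₂ (r1 x y α β γ s) = 0 := by
      rw [D_r1 hD₂ hD₂x hD₂y hE₂α hE₂β hE₂γ]
      have : (fun j => (E₂.restrictScalars ℤ) (s j)) = 0 := by
        funext j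
        change E₂ (s j) = 0
        rw [hE₂, hs, hD]; simp
      rw [this, (r_zero x y α β γ m).2]
    have hr0' : D₂ (r0 x y α β γ r) ≠ 0 := by
      rw [D_r0 hD₂ hD₂x hD₂y hE₂α hE₂β hE₂γ]
      apply r0_ne hI hB hE
      intro h
      have h1 := congrFun h ⟨0, hm0⟩
      change E₂ (r ⟨0, hm0⟩) = 0 at h1
      rw [hE₂, hr, hD] at h1
      simp at h1
    refine ⟨D₁, D₂, ⟨fun c => ?_, hD₁x, hD0 _ D₁ hD₁ hD₁x⟩, ⟨fun c => ?_, hD₂x, hD₂y⟩, ?_⟩
    · rw [hD₁]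
      change algebraMap k K (E₁ (algebraMap k₀ k c)) = 0
      rw [E₁.map_algebraMap, map_zero]
    · rw [hD₂]
      change algebraMap k K (E₂ (algebraMap k₀ k c)) = 0
      rw [E₂.map_algebraMap, map_zero]
    · rw [hgv]
      refine hmov2 _ _ D₁ D₂ hD₁ hD₂ ?_ ?_ ?_ ?_ ?_
      · change E₁ τ ≠ 0
        rw [hE₁, hτ, hD]; simp
      · change E₂ τ = 0
        rw [hE₂, hτ, hD]; simp
      · rw [hu0]
        intro h0
        have h1 : r0 x y α β γ r ^ 2 = r0 x y α β γ r ^ 2 / phi x y α β γ * phi x y α β γ := by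
          rw [div_mul_cancel₀ _ hphi0]
        have h2 := congrArg D₂ h1
        rw [D₂.leibniz (r0 x y α β γ r ^ 2 / phi x y α β γ), hφ, h0, smul_zero, smul_zero,
          add_zero, D₂.leibniz_pow] at h2
        simp only [smul_eq_mul, nsmul_eq_mul] at h2
        rcases mul_eq_zero.1 h2 with h3 | h3
        · norm_num at h3
        · rcases mul_eq_zero.1 h3 with h4 | h4
          · exact pow_ne_zero _ (r0_ne hI hB hE α β γ hr0) h4
          · exact hr0' h4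
      · rw [hu1]
        apply D_ratio_zero
        · rw [D₂.leibniz_pow, hr1]; simp
        · rw [D₂.leibniz, hφ, hD₂x]; simp
      · rw [hu1]
        exact div_ne_zero (pow_ne_zero _ (r1_ne hI hB hE α β γ hs0)) (mul_ne_zero hx0 hphi0)

end Pool.Agent.Y166.DP
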