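import Pool.Agent.Y166.DP.EvenC

/-! The large irreducible families of sections of even height. -/

set_option autoImplicit false
set_option linter.unusedSectionVars false

namespace Pool.Agent.Y166.DP

open MvPolynomial FF Pool.Agent.W603.LV Pool.Agent.TH145.GH

theorem der_zero_of_gen {K₀ K k₀ : Type} [Field k₀] [Field K₀] [Field K] [Algebra k₀ K₀]
    (φ : K₀ →+* K) (D : Derivation ℤ K K) (S : Set K₀) (hS : ∀ s ∈ S, D (φ s) = 0)
    (hc : ∀ c : k₀, D (φ (algebraMap k₀ K₀ c)) = 0) (hgen : IntermediateField.adjoin k₀ S = ⊤)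
    (a : K₀) : D (φ a) = 0 := by
  have h1 : a ∈ IntermediateField.adjoin k₀ S := by rw [hgen]; trivial
  induction h1 using IntermediateField.adjoin_induction with
  | mem x hx => exact hS x hx
  | algebraMap c => exact hc c
  | add x y _ _ hx hy => rw [map_add, map_add, hx, hy, add_zero]
  | inv x _ hx =>
    rw [map_inv₀, D.leibniz_inv, hx]
    simp
  | mul x y _ _ hx hy => rw [map_mul, D.leibniz, hx, hy]; simp

/-- The large irreducible families of sections of even height. -/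
theorem even_family (hI : StmInf) (hB : StmBasis) (hExt : StmExt) (hDual : StmDual)
    (hPhi : StmPhi) (hUU : StmUU) (hHt : StmHt) (hInj : StmInj) (hTan : StmTan) (hMov : StmMov)
    (hFF : StmFF) (hMap : StmMap) (hModel : StmModel) (hRK : StmRK) (hEqn : StmEqn)
    (hAlg : StmAlg) (hSpec : StmSpec) (hSurf : StmSurf) (hNo : StmNoSurf)
    {k₀ K₀ : Type} [Field k₀] [Field K₀] [Algebra k₀ K₀] [CharZero k₀] [IsAlgClosed k₀]
    [IsFF k₀ K₀] (lam : k₀) (x₀ y₀ : K₀) (hE₀ : Ell k₀ K₀ lam x₀ y₀) (m : ℕ) (hm : 2 ≤ m) :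
    ∃ Z : Set (Idx (2 * m) → k₀), Z ⊆ cone x₀ y₀ (2 * m) ∧ IsIrr Z ∧ 2 * m + 2 ≤ dimA Z ∧
      ¬ InSurface x₀ y₀ Z := by
  classical
  -- the large field
  let R : Type := FractionRing (MvPolynomial (Par m) k₀)
  let k : Type := AlgebraicClosure R
  let z : Par m → k := fun i => algebraMap R k (algebraMap (MvPolynomial (Par m) k₀) R (X i))
  haveI : CharZero k := charZero_of_injective_algebraMap (algebraMap k₀ k).injective
  have hz : AlgebraicIndependent k₀ z := by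
    have hinj : Function.Injective
        ((algebraMap R k).comp (algebraMap (MvPolynomial (Par m) k₀) R)) :=
      (algebraMap R k).injective.comp (IsFractionRing.injective _ _)
    have h1 : (aeval z : MvPolynomial (Par m) k₀ →ₐ[k₀] k) =
        ((IsScalarTower.toAlgHom k₀ R k).comp
          (IsScalarTower.toAlgHom k₀ (MvPolynomial (Par m) k₀) R)) := by
      apply MvPolynomial.algHom_ext
      intro i
      rw [aeval_X]
      rfl
    change Function.Injective (aeval z : MvPolynomial (Par m) k₀ →ₐ[k₀] k)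
    rw [h1]
    exact hinj
  have hl0 : algebraMap k₀ k lam ≠ 0 := (_root_.map_ne_zero _).2 hE₀.lam0
  have hl1 : algebraMap k₀ k lam ≠ 1 := by
    intro h
    apply hE₀.lam1
    apply (algebraMap k₀ k).injective
    rw [h, map_one]
  obtain ⟨K, iK1, iK2, x, y, hE⟩ : ∃ (K : Type) (_ : Field K) (_ : Algebra k K) (x y : K),
      Ell k K (algebraMap k₀ k lam) x y :=
    ⟨KB k (algebraMap k₀ k lam), inferInstance, inferInstance, _, _, hModel k _ hl0 hl1⟩
  haveI : IsFF k K := hFF k K _ x y hE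
  obtain ⟨ξ, hξ, hξD, D₁, D₂, ⟨h1c, h1x, h1y⟩, ⟨h2c, h2x, h2y⟩, hwr⟩ :=
    point_main hI hB hExt hDual hPhi hUU hHt hInj hTan hMov lam x y hE m hm z hz
  obtain ⟨φ, hφx, hφy, hφc⟩ := hMap k₀ K₀ k K lam x₀ y₀ x y hE₀ hE
  obtain ⟨hg0, hh0, hht0⟩ := hξ
  -- the open condition
  obtain ⟨S, hS⟩ := hRK k₀ lam (2 * m) (2 * m)
  obtain ⟨S', hS'⟩ := hRK k₀ lam (2 * m) (2 * m + 1)
  obtain ⟨T, hT⟩ := hEqn k₀ lam (2 * m)
  have hn0 := inl_ne_zero' hg0
  obtain ⟨F₀, hF₀, hF₀'⟩ := (hS k K x y hE _ hn0).2 (by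
    change ((2 * m : ℕ) : ℤ) ≤ ht k (gv x y ξ)
    rw [hht0])
  obtain ⟨p₀, hp₀⟩ := Function.ne_iff.1 hn0
  obtain ⟨μ, hμ⟩ : ∃ μ : MvPolynomial (Idx (2 * m)) k₀, μ = rename Sum.inl F₀ * X (.inl p₀) :=
    ⟨_, rfl⟩
  have hevξ : ∀ F : MvPolynomial (Fin 3 × Fin (2 * m + 1)) k₀,
      aeval ξ (rename Sum.inl F) = aeval (fun p => ξ (.inl p)) F := by
    intro F
    rw [aeval_rename]
    rfl
  have hev : ∀ (c : Idx (2 * m) → k₀) (F : MvPolynomial (Fin 3 × Fin (2 * m + 1)) k₀),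
      eval c (rename Sum.inl F) = aeval (fun p => c (.inl p)) F := by
    intro c F
    rw [eval_rename]
    exact (congrArg (fun φ : MvPolynomial (Fin 3 × Fin (2 * m + 1)) k₀ →+* k₀ => φ F)
      (coe_aeval_eq_eval (fun p => c (Sum.inl p)))).symm
  have hμξ : aeval ξ μ ≠ 0 := by
    rw [hμ, map_mul, aeval_X, hevξ]
    exact mul_ne_zero hF₀' hp₀
  obtain ⟨Z, hZ⟩ : ∃ Z : Set (Idx (2 * m) → k₀), Z =
      {z | (∀ F : MvPolynomial (Idx (2 * m)) k₀, aeval ξ F = 0 → eval z F = 0) ∧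
        eval z μ ≠ 0} := ⟨_, rfl⟩
  obtain ⟨hvan, hirr, hdim⟩ := hSpec k₀ k (Idx (2 * m)) ξ μ hμξ Z hZ
  have hE₀' : Ell k₀ K₀ (algebraMap k₀ k₀ lam) x₀ y₀ := hE₀
  refine ⟨Z, ?_, hirr, ?_, ?_⟩
  · intro c hc
    rw [hZ] at hc
    obtain ⟨hc1, hc2⟩ := hc
    rw [hμ, map_mul, eval_X, hev] at hc2
    have h1 := left_ne_zero_of_mul hc2
    have h2 := right_ne_zero_of_mul hc2
    have h3 : (fun p => c (.inl p)) ≠ 0 := by
      intro h0
      exact h2 (congrFun h0 p₀)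
    refine ⟨?_, ?_, le_antisymm ?_ ?_⟩
    · intro h0
      apply h3
      funext ⟨i, j⟩
      obtain ⟨o, hox, -, -⟩ := hI k₀ K₀ lam x₀ y₀ hE₀
      have h4 := (hB k₀ K₀ lam x₀ y₀ hE₀ o (by rw [hox]; norm_num)).2.1 (2 * m + 1)
        (fun j => c (Sum.inl (i, j))) (congrFun h0 i)
      exact congrFun h4 j
    · refine (hT k₀ K₀ x₀ y₀ hE₀' c).2 fun F hF => ?_
      have h5 := (hT k K x y hE ξ).1 hh0 F hF
      have h6 := hc1 F h5
      rw [← h6]
      exact congrArg (fun φ : MvPolynomial (Idx (2 * m)) k₀ →+* k₀ => φ F) (coe_aeval_eq_eval c)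
    · by_contra hcon
      push Not at hcon
      obtain ⟨F, hF, hF'⟩ := (hS' k₀ K₀ x₀ y₀ hE₀' _ h3).2 (by
        change ((2 * m + 1 : ℕ) : ℤ) ≤ ht k₀ (gv x₀ y₀ c)
        push_cast at hcon ⊢
        omega)
      apply hF'
      rw [← hev]
      apply hc1
      rw [hevξ]
      by_contra hne2
      have h5 := (hS' k K x y hE _ hn0).1 ⟨F, hF, hne2⟩
      change ((2 * m + 1 : ℕ) : ℤ) ≤ ht k (gv x y ξ) at h5
      rw [hht0] at h5
      push_cast at h5
      omega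
    · exact (hS k₀ K₀ x₀ y₀ hE₀' _ h3).1 ⟨F₀, hF₀, h1⟩
  · have h1 := hdim (Par m) z hz fun i => hAlg k₀ k (Set.range ξ) (z i) fun D hD =>
      hξD D (fun s => hD _ ⟨s, rfl⟩) i
    have h2 : Fintype.card (Par m) = 2 * m + 2 := by
      simp [Par]
      ring
    rw [h2] at h1
    exact h1
  · rintro ⟨n, Ψ, hΨn, hΨ0, hΨ⟩
    have h1 := hSurf k₀ K₀ k K x₀ y₀ φ (2 * m) hφc ξ Z (fun F hF => (hvan F).1 hF) Ψ hΨ
    rw [hφx, hφy] at h1
    have hker : ∀ D : Derivation ℤ K K, (∀ c : k₀, D (algebraMap k K (algebraMap k₀ k c)) = 0) →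
        D x = 0 → D y = 0 → ∀ a, D (φ a) = 0 := by
      intro D hDc hDx hDy a
      refine der_zero_of_gen (k₀ := k₀) φ D {x₀, y₀} ?_ (fun c => ?_) hE₀.gen a
      · rintro s (rfl | rfl)
        · rw [hφx]; exact hDx
        · rw [hφy]; exact hDy
      · rw [hφc]; exact hDc c
    have hcK : CharZero K := charZero_of_injective_algebraMap (algebraMap k K).injective
    exact hNo K₀ K φ D₁ D₂ (hker D₁ h1c h1x h1y) (hker D₂ h2c h2x h2y) _ hwr n Ψ hΨn hΨ0 h1

end Pool.Agent.Y166.DP
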