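import Pool.Agent.Y166.DP.Stm

/-! The determinants lie in a space of functions of dimension at most the height. -/

set_option autoImplicit false
set_option linter.unusedSectionVars false

namespace Pool.Agent.Y166.DP

open MvPolynomial FF Pool.Agent.W603.LV Pool.Agent.TH145.GH

section
variable {k K : Type} [Field k] [Field K] [Algebra k K] [CharZero k] [IsAlgClosed k] [IsFF k K]

theorem ddeg_eq_sum (D : Place k K →₀ ℤ) (T : Finset (Place k K)) (hT : ∀ P, D P ≠ 0 → P ∈ T) :
    ddeg D = ∑ P ∈ T, D P := by
  unfold ddeg
  rw [Finsupp.sum_of_support_subset (s := T)]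
  · refine Finset.sum_congr rfl fun P _ => ?_
    rw [deg_one]; simp
  · intro P hP
    exact hT P (Finsupp.mem_support_iff.1 hP)
  · intro P _; simp

/-- The image of the determinant map. -/
theorem img (hL : StmLoc) (δ : Derivation k K K) (hδ0 : δ ≠ 0) (hδ : ∀ P : Place k K, vo P δ = 0)
    (g : Fin 3 → K) (hg : g ≠ 0) (hq : quart g ≠ 0)
    (hev : ∀ P : Place k K, Even (P.ord (quart g))) :
    ∃ E : Place k K →₀ ℤ, ddeg E = ht k g ∧
      ∀ D' : Derivation ℤ K K, Sem k D' → wr δ D' g ∈ LL E := by
  classical
  have hfin : (Function.support fun P : Place k K => -(mo P g + P.ord (quart g) / 2)).Finite := by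
    apply ((mo_supp (k := k) g).union (finite_support (k := k) (quart g))).subset
    intro P hP
    by_contra hcon
    rw [Set.mem_union, not_or] at hcon
    simp only [Set.mem_setOf_eq, not_not] at hcon
    apply hP
    simp [hcon.1, hcon.2]
  refine ⟨Finsupp.ofSupportFinite _ hfin, ?_, ?_⟩
  · set T : Finset (Place k K) := (mo_supp (k := k) g).toFinset ∪
      (finite_support (k := k) (quart g)).toFinset with hT
    have h1 : ∀ P : Place k K, mo P g ≠ 0 → P ∈ T := by
      intro P hP; simp [hT, hP]
    have h2 : ∀ P : Place k K, P.ord (quart g) ≠ 0 → P ∈ T := by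
      intro P hP; simp [hT, hP]
    rw [ddeg_eq_sum _ T, ht_finset g T h1]
    · have h3 := sum_ord_finset (quart g) T h2
      have h4 : ∑ P ∈ T, P.ord (quart g) / 2 = 0 := by
        have h5 : ∑ P ∈ T, P.ord (quart g) = 2 * ∑ P ∈ T, P.ord (quart g) / 2 := by
          rw [Finset.mul_sum]
          refine Finset.sum_congr rfl fun P _ => ?_
          have := (hev P)
          obtain ⟨n, hn⟩ := this
          omega
        omega
      change ∑ P ∈ T, -(mo P g + P.ord (quart g) / 2) = _
      rw [Finset.sum_neg_distrib, Finset.sum_add_distrib, h4, add_zero]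
    · intro P hP
      by_contra hcon
      apply hP
      change -(mo P g + P.ord (quart g) / 2) = 0
      have h5 : mo P g = 0 := by
        by_contra h; exact hcon (h1 P h)
      have h6 : P.ord (quart g) = 0 := by
        by_contra h; exact hcon (h2 P h)
      rw [h5, h6]; rfl
  · intro D' hD'
    rw [mem_LL]
    by_cases h0 : wr δ D' g = 0
    · exact Or.inl h0
    · right
      intro P
      have h1 := (hL k K P δ hδ0 (hδ P) D' hD' g hg hq (hev P)).resolve_left h0
      obtain ⟨n, hn⟩ := hev P
      change - -(mo P g + P.ord (quart g) / 2) ≤ _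
      omega

end

end Pool.Agent.Y166.DP
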