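import Pool.Agent.Y166.DP.Odd
import Pool.Agent.Y166.DP.Poly

/-! Irreducible sets of sections of odd prime height `d` have dimension at most `d`. -/

set_option autoImplicit false
set_option linter.unusedSectionVars false

namespace Pool.Agent.Y166.DP

open MvPolynomial FF Pool.Agent.W603.LV Pool.Agent.TH145.GH

section
variable {k K : Type} [Field k] [Field K] [Algebra k K]

theorem fsum_zero (x y : K) {N : ℕ} : fsum x y (0 : Fin N → k) = 0 := by
  unfold fsum
  refine Finset.sum_eq_zero fun j _ => ?_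
  rw [Pi.zero_apply, map_zero, zero_mul]

variable [CharZero k] [IsFF k K] [IsAlgClosed k]

theorem inl_ne_zero {x y : K} {d : ℕ} {c : Idx d → k} (h : gv x y c ≠ 0) :
    (fun p => c (.inl p)) ≠ 0 := by
  intro h0
  apply h
  funext i
  have h1 : (fun j => c (Sum.inl (i, j))) = 0 := by
    funext j
    exact congrFun h0 (i, j)
  change fsum x y (fun j => c (Sum.inl (i, j))) = 0
  rw [h1, fsum_zero]

/-- Points of the affine space that satisfy all polynomial relations satisfied on a subset `M` of
the cone, and an open condition, lie in the cone. -/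
theorem cone_generic (hI : StmInf) (hB : StmBasis) (hRK : StmRK) (lam : k) (x y : K)
    (hE : Ell k K lam x y) (d : ℕ) (M : Set (Idx d → k)) (hM : M ⊆ cone x y d) (hirr : IsIrr M) :
    ∃ h : MvPolynomial (Idx d) k, h ∉ van M ∧
      ∀ ξ : Idx d → k, (∀ F ∈ van M, eval ξ F = 0) → eval ξ h ≠ 0 → ξ ∈ cone x y d := by
  classical
  have hne : M.Nonempty := by
    rw [Set.nonempty_iff_ne_empty]
    rintro rfl
    apply hirr.ne_top
    rw [Ideal.eq_top_iff_one]
    intro c hc
    exact absurd hc (Set.notMem_empty c)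
  obtain ⟨c₀, hc₀⟩ := hne
  obtain ⟨hg0, hh0, hht0⟩ := hM hc₀
  obtain ⟨S, hS⟩ := hRK k lam d d
  obtain ⟨S', hS'⟩ := hRK k lam d (d + 1)
  have hE' : Ell k K (algebraMap k k lam) x y := hE
  have hn0 := inl_ne_zero hg0
  obtain ⟨F₀, hF₀, hF₀'⟩ := (hS k K x y hE' _ hn0).2 (by
    change (d : ℤ) ≤ ht k (gv x y c₀)
    rw [hht0])
  obtain ⟨p₀, hp₀⟩ := Function.ne_iff.1 hn0
  have hev : ∀ (c : Idx d → k) (F : MvPolynomial (Fin 3 × Fin (d + 1)) k),
      eval c (rename Sum.inl F) = aeval (fun p => c (.inl p)) F := by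
    intro c F
    rw [eval_rename]
    exact (congrArg (fun φ : MvPolynomial (Fin 3 × Fin (d + 1)) k →+* k => φ F)
      (coe_aeval_eq_eval (fun p => c (Sum.inl p)))).symm
  refine ⟨rename Sum.inl F₀ * X (.inl p₀), ?_, ?_⟩
  · intro h
    have h1 := h c₀ hc₀
    rw [map_mul, eval_X, hev] at h1
    rcases mul_eq_zero.1 h1 with h1 | h1
    · exact hF₀' h1
    · exact hp₀ h1
  · intro ξ hξ hne
    rw [map_mul, eval_X, hev] at hne
    have h1 := left_ne_zero_of_mul hne
    have h2 := right_ne_zero_of_mul hne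
    have h3 : (fun p => ξ (.inl p)) ≠ 0 := by
      intro h0
      exact h2 (congrFun h0 p₀)
    refine ⟨?_, cone_closed x y d M (fun c hc => (hM hc).2.1) ξ hξ, le_antisymm ?_ ?_⟩
    · intro h0
      apply h3
      funext ⟨i, j⟩
      obtain ⟨o, hox, -, -⟩ := hI k K lam x y hE
      have h4 := (hB k K lam x y hE o (by rw [hox]; norm_num)).2.1 (d + 1)
        (fun j => ξ (Sum.inl (i, j))) (congrFun h0 i)
      exact congrFun h4 j
    · by_contra hcon
      push Not at hcon
      obtain ⟨F, hF, hF'⟩ := (hS' k K x y hE' _ h3).2 (by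
        change ((d + 1 : ℕ) : ℤ) ≤ ht k (gv x y ξ)
        push_cast
        omega)
      apply hF'
      rw [← hev]
      apply hξ
      intro c hc
      rw [hev]
      by_contra hne2
      have h5 := (hS' k K x y hE' _ (inl_ne_zero (hM hc).1)).1 ⟨F, hF, hne2⟩
      have h6 := (hM hc).2.2
      change ((d + 1 : ℕ) : ℤ) ≤ ht k (gv x y c) at h5
      rw [h6] at h5
      push_cast at h5
      omega
    · exact (hS k K x y hE' _ h3).1 ⟨F₀, hF₀, h1⟩

end

theorem der_sum {k : Type} [Field k] {n : ℕ} (a : Fin n → k) (D : Fin n → Derivation ℤ k k)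
    (z : k) : (∑ l, a l • D l : Derivation ℤ k k) z = ∑ l, a l * D l z := by
  have h : ∀ s : Finset (Fin n), (∑ l ∈ s, a l • D l : Derivation ℤ k k) z =
      ∑ l ∈ s, a l * D l z := by
    intro s
    classical
    induction s using Finset.induction_on with
    | empty => simp
    | insert b s hb ih =>
      rw [Finset.sum_insert hb, Finset.sum_insert hb, Derivation.add_apply, ih,
        Derivation.smul_apply, smul_eq_mul]
  exact h _

/-- Irreducible sets of sections of odd prime height `d` have dimension at most `d`. -/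
theorem dim_odd (hI : StmInf) (hB : StmBasis) (hRK : StmRK) (hDel : StmDel) (hRR : StmRR)
    (hE : StmExt) (hL : StmLoc) (hK : StmKer) (hP : StmPrime) (hLine : StmLine) (hDual : StmDual)
    (hGen : StmGen) {K : Type} [Field K] [Algebra ℂ K] [IsFF ℂ K] (lam : ℂ)
    (hlam : Transcendental ℚ lam) (x y : K) (hEll : Ell ℂ K lam x y) (d : ℕ)
    (hd : d.Prime) (hodd : Odd d) (M : Set (Idx d → ℂ)) (hM : M ⊆ cone x y d) (hirr : IsIrr M) :
    dimA M ≤ d + 1 := by
  classical
  obtain ⟨h, hh, hcone⟩ := cone_generic hI hB hRK lam x y hEll d M hM hirr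
  obtain ⟨ξ, hξ, hξh, j', hj'⟩ := hGen (Idx d) (van M) hirr h hh lam hlam
  have hξc := hcone ξ hξ hξh
  obtain ⟨m, hm, j, hj⟩ : ∃ m, m = dimA M ∧ ∃ j : Fin m → Idx d,
      AlgebraicIndependent ℚ (Fin.cons lam (fun i => ξ (j i)) : Fin (m + 1) → ℂ) :=
    ⟨dimA M, rfl, j', hj'⟩
  obtain ⟨D, hD⟩ := hDual ℚ ℂ (Fin (m + 1)) _ hj
  set D' : Fin (m + 1) → Derivation ℤ ℂ ℂ := fun i => (D i).restrictScalars ℤ with hD'
  have hD'z : ∀ i l, D' i ((Fin.cons lam (fun i => ξ (j i)) : Fin (m + 1) → ℂ) l) =
      if i = l then 1 else 0 := fun i l => hD i l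
  have hlin : LinearIndependent ℂ D' := by
    rw [Fintype.linearIndependent_iff]
    intro a ha i
    have h1 := congrArg (fun E : Derivation ℤ ℂ ℂ =>
      E ((Fin.cons lam (fun i => ξ (j i)) : Fin (m + 1) → ℂ) i)) ha
    simp only [Derivation.coe_zero, Pi.zero_apply] at h1
    have h2 : (∑ l, a l • D' l : Derivation ℤ ℂ ℂ)
        ((Fin.cons lam (fun i => ξ (j i)) : Fin (m + 1) → ℂ) i) =
        ∑ l, a l * (if l = i then 1 else 0) := by
      rw [der_sum]
      refine Finset.sum_congr rfl fun l _ => ?_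
      rw [hD'z]
    rw [h2] at h1
    simpa using h1
  set E : Submodule ℂ (Derivation ℤ ℂ ℂ) := Submodule.span ℂ (Set.range D') with hEdef
  have hfd : FiniteDimensional ℂ E := FiniteDimensional.span_of_finite ℂ (Set.finite_range _)
  have hrank : Module.finrank ℂ E = m + 1 := by
    rw [hEdef, finrank_span_eq_card hlin, Fintype.card_fin]
  have hinj : ∀ F ∈ E, F lam = 0 → (∀ p, F (ξ (.inl p)) = 0) → F = 0 := by
    intro F hF hFlam hFξ
    obtain ⟨F', hF', hF'x⟩ := (hE ℂ K x hEll.tr).1 F
    have hF'y := y_of_x hEll hF' hFlam hF'x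
    have h1 : ∀ i, F' (gv x y ξ i) = 0 := by
      intro i
      change F' (fsum x y fun j => ξ (Sum.inl (i, j))) = 0
      rw [D_fsum hF' hF'x hF'y]
      have : (fun j => F (ξ (Sum.inl (i, j)))) = 0 := by
        funext j
        exact hFξ (i, j)
      rw [this, fsum_zero]
    have h2 : F' (quart (gv x y ξ)) = 0 := by
      unfold quart
      rw [map_add, map_add, F'.leibniz_pow, F'.leibniz_pow, F'.leibniz_pow, h1, h1, h1]
      simp
    have h3 : F' (xh x y ξ ^ 2) = 0 := by
      rw [hξc.2.1, F'.leibniz, h2, hF'x]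
      simp
    obtain ⟨o, hox, -, -⟩ := hI ℂ K lam x y hEll
    have hind := (hB ℂ K lam x y hEll o (by rw [hox]; norm_num)).2.1 (2 * d + 3)
    have h4 : ∀ q, F (ξ (.inr q)) = 0 := by
      by_cases h0 : xh x y ξ = 0
      · intro q
        have h5 := congrFun (hind _ h0) q
        change ξ (.inr q) = 0 at h5
        rw [h5, map_zero]
      · rw [F'.leibniz_pow] at h3
        have hchar : CharZero K := charZero_of_injective_algebraMap (algebraMap ℂ K).injective
        have h5 : F' (xh x y ξ) = 0 := by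
          simp only [smul_eq_mul, nsmul_eq_mul] at h3
          rcases mul_eq_zero.1 h3 with h6 | h6
          · exact absurd h6 (by norm_num)
          · rcases mul_eq_zero.1 h6 with h7 | h7
            · exact absurd h7 (pow_ne_zero _ h0)
            · exact h7
        have h6 : fsum x y (fun q => F (ξ (.inr q))) = 0 := by
          rw [← D_fsum hF' hF'x hF'y]
          exact h5
        intro q
        exact congrFun (hind _ h6) q
    have h5 : ∀ s, F (ξ s) = 0 := by
      rintro (p | q)
      · exact hFξ p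
      · exact h4 q
    rw [hEdef, Submodule.mem_span_range_iff_exists_fun] at hF
    obtain ⟨a, ha⟩ := hF
    have h6 : ∀ i, a i = 0 := by
      intro i
      have h7 : F ((Fin.cons lam (fun i => ξ (j i)) : Fin (m + 1) → ℂ) i) = a i := by
        rw [← ha, der_sum, Finset.sum_congr rfl fun l _ => by rw [hD'z]]
        simp
      rw [← h7]
      refine Fin.cases ?_ (fun l => ?_) i
      · rw [Fin.cons_zero]; exact hFlam
      · rw [Fin.cons_succ]; exact h5 _
    rw [← ha]
    refine Finset.sum_eq_zero fun l _ => ?_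
    rw [h6, zero_smul]
  have h1 := boundD hI hDel hRR hE hL hK hP hLine lam x y hEll d hd hodd ξ hξc E hinj
  rw [hrank] at h1
  omega

end Pool.Agent.Y166.DP
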