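import Pool.Agent.Y166.DP.EvenA

/-! The points of the cone are the sections, up to a scalar. -/

set_option autoImplicit false
set_option linter.unusedSectionVars false

namespace Pool.Agent.Y166.DP

open MvPolynomial FF Pool.Agent.W603.LV Pool.Agent.TH145.GH

section
variable {k K : Type} [Field k] [Field K] [Algebra k K] [CharZero k] [IsFF k K] [IsAlgClosed k]

/-- The divisor of the multiples of `g` with poles at infinity of order at most `d + 1`. -/
theorem exists_div (g : Fin 3 → K) (o : Place k K) (n : ℤ) :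
    ∃ E : Place k K →₀ ℤ, ddeg E = n - ht k g ∧
      (∀ P, P ≠ o → E P = mo P g) ∧ E o = n + mo o g := by
  classical
  have hfin : (Function.support fun P : Place k K => mo P g).Finite := mo_supp (k := k) g
  refine ⟨Finsupp.ofSupportFinite _ hfin + Finsupp.single o n, ?_, ?_, ?_⟩
  · rw [ddeg_add, ddeg_single, deg_one, ddeg_eq_sum _ hfin.toFinset]
    · rw [ht_finset g hfin.toFinset (by intro P hP; simpa using hP)]
      change ∑ P ∈ hfin.toFinset, mo P g + _ = _
      push_cast; ring
    · intro P hP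
      exact (Set.Finite.mem_toFinset hfin).2 hP
  · intro P hP
    rw [Finsupp.add_apply, Finsupp.single_apply, if_neg (Ne.symm hP), add_zero]
    rfl
  · rw [Finsupp.add_apply, Finsupp.single_apply, if_pos rfl, add_comm]
    rfl

theorem mem_LL_iff {g : Fin 3 → K} (hg : g ≠ 0) (o : Place k K) (n : ℤ)
    {E : Place k K →₀ ℤ} (h1 : ∀ P, P ≠ o → E P = mo P g) (h2 : E o = n + mo o g) (f : K) :
    f ∈ LL E ↔ ∀ i, (∀ P, P ≠ o → Ge P 0 (f * g i)) ∧ Ge o (-n) (f * g i) := by
  rw [mem_LL]
  by_cases hf : f = 0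
  · rw [hf]
    simp only [true_or, zero_mul, true_iff]
    exact fun i => ⟨fun P _ => Ge.zero, Ge.zero⟩
  constructor
  · intro h i
    have h := h.resolve_left hf
    refine ⟨fun P hP => ?_, ?_⟩
    · have h3 := h P
      rw [h1 P hP] at h3
      have h4 : Ge P (-mo P g) f := Or.inr h3
      have := h4.mul (ge_mo P g i)
      simpa using this
    · have h3 := h o
      rw [h2] at h3
      have h4 : Ge o (-(n + mo o g)) f := Or.inr h3
      have := h4.mul (ge_mo o g i)
      exact this.mono (by omega)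
  · intro h
    right
    intro P
    obtain ⟨i, hi, e⟩ := exists_mo P hg
    by_cases hP : P = o
    · subst hP
      have h3 := (h i).2.resolve_left (mul_ne_zero hf hi)
      rw [P.ord_mul hf hi, e] at h3
      rw [h2]; omega
    · have h3 := ((h i).1 P hP).resolve_left (mul_ne_zero hf hi)
      rw [P.ord_mul hf hi, e] at h3
      rw [h1 P hP]; omega

/-- Every point of height `d` of the surface is represented by a point of the cone. -/
theorem exists_rep (hI : StmInf) (hB : StmBasis) (hRR : StmRR) {lam : k} {x y : K}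
    (hE : Ell k K lam x y) (d : ℕ) (g : Fin 3 → K) (h : K) (hg : g ≠ 0)
    (hh : x * h ^ 2 = quart g) (hht : ht k g = d) :
    ∃ c : Idx d → k, c ∈ cone x y d ∧ ∃ f : K, f ≠ 0 ∧ (∀ i, gv x y c i = f * g i) ∧
      xh x y c = f ^ 2 * (x * h) := by
  obtain ⟨o, hox, hoy, ho⟩ := hI k K lam x y hE
  have hB' := (hB k K lam x y hE o (by rw [hox]; norm_num)).2.2 (d + 1) (Nat.succ_pos d)
  obtain ⟨E, hE1, hE2, hE3⟩ := exists_div (k := k) g o ((d + 1 : ℕ) : ℤ)
  have hdeg : ddeg E = 1 := by rw [hE1, hht]; push_cast; ring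
  have hell : ell E = 1 := by rw [hRR k K lam x y hE E hdeg.ge, hdeg]
  obtain ⟨f, hf, hf0⟩ := exists_ne_zero_of_ell_pos (k := k) (D := E) (by rw [hell]; norm_num)
  rw [mem_LL_iff hg o _ hE2 hE3] at hf
  have hc : ∀ i, ∃ c : Fin (d + 1) → k, f * g i = fsum x y c := fun i => (hB' _).1 (hf i)
  have hq : (f ^ 2 * (x * h)) ^ 2 = x * quart fun i => f * g i := by
    have : quart (fun i => f * g i) = f ^ 4 * quart g := by unfold quart; ring
    rw [this, ← hh]; ring
  obtain ⟨cH, hcH⟩ := poles_of_sq hI hB hE _ _ hq hc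
  choose cg hcg using hc
  refine ⟨Sum.elim (fun p => cg p.1 p.2) cH, ?_, f, hf0, fun i => (hcg i).symm, hcH.symm⟩
  have hgv : gv x y (Sum.elim (fun p => cg p.1 p.2) cH : Idx d → k) = fun i => f * g i := by
    funext i
    exact (hcg i).symm
  refine ⟨?_, ?_, ?_⟩
  · rw [hgv]
    intro h0
    apply hg
    funext i
    exact (mul_eq_zero.1 (congrFun h0 i)).resolve_left hf0
  · rw [hgv]
    have : xh x y (Sum.elim (fun p => cg p.1 p.2) cH : Idx d → k) = f ^ 2 * (x * h) := hcH.symm
    rw [this]; exact hq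
  · rw [hgv, ht_smul hg hf0, hht]

/-- Two points of the cone that represent the same point of the surface differ by a constant. -/
theorem rep_unique (hI : StmInf) (hB : StmBasis) (hRR : StmRR) {lam : k} {x y : K}
    (hE : Ell k K lam x y) (d : ℕ) (c c' : Idx d → k) (hc : c ∈ cone x y d) (f : K) (hf : f ≠ 0) (h1 : ∀ i, gv x y c' i = f * gv x y c i)
    (h2 : xh x y c' = f ^ 2 * xh x y c) :
    ∃ t : k, t ≠ 0 ∧ (∀ p, c' (.inl p) = t * c (.inl p)) ∧
      ∀ p, c' (.inr p) = t ^ 2 * c (.inr p) := by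
  obtain ⟨o, hox, hoy, ho⟩ := hI k K lam x y hE
  have hBB := hB k K lam x y hE o (by rw [hox]; norm_num)
  have hB' := hBB.2.2 (d + 1) (Nat.succ_pos d)
  obtain ⟨hg, -, hht⟩ := hc
  obtain ⟨E, hE1, hE2, hE3⟩ := exists_div (k := k) (gv x y c) o ((d + 1 : ℕ) : ℤ)
  have hdeg : ddeg E = 1 := by rw [hE1, hht]; push_cast; ring
  have hell : ell E = 1 := by rw [hRR k K lam x y hE E hdeg.ge, hdeg]
  have hfE : f ∈ LL E := by
    rw [mem_LL_iff hg o _ hE2 hE3]
    intro i
    rw [← h1]
    exact (hB' _).2 ⟨_, rfl⟩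
  have h1E : (1 : K) ∈ LL E := by
    rw [mem_LL_iff hg o _ hE2 hE3]
    intro i
    rw [one_mul]
    exact (hB' _).2 ⟨_, rfl⟩
  have hfr : Module.finrank k (LL E) = 1 := by unfold ell at hell; exact_mod_cast hell
  obtain ⟨t, ht⟩ := (finrank_eq_one_iff_of_nonzero' (⟨1, h1E⟩ : LL E) (by
    intro h; exact one_ne_zero (congrArg Subtype.val h))).1 hfr ⟨f, hfE⟩
  have hft : f = algebraMap k K t := by
    have := congrArg (Subtype.val : LL E → K) ht
    rw [Algebra.algebraMap_eq_smul_one]
    exact this.symm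
  have hind : ∀ {N : ℕ} (a b : Fin N → k) (s : k), fsum x y a = algebraMap k K s * fsum x y b →
      a = fun j => s * b j := by
    intro N a b s h
    have h3 : fsum x y (fun j => a j - s * b j) = 0 := by
      have : fsum x y (fun j => a j - s * b j) = fsum x y a - algebraMap k K s * fsum x y b := by
        unfold fsum
        rw [Finset.mul_sum, ← Finset.sum_sub_distrib]
        refine Finset.sum_congr rfl fun j _ => ?_
        rw [map_sub, map_mul]; ring
      rw [this, h, sub_self]
    funext j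
    have := congrFun (hBB.2.1 N _ h3) j
    exact sub_eq_zero.1 this
  refine ⟨t, ?_, ?_, ?_⟩
  · rintro rfl
    apply hf
    rw [hft, map_zero]
  · rintro ⟨i, j⟩
    have h3 := h1 i
    rw [hft] at h3
    exact congrFun (hind _ _ _ h3) j
  · intro p
    have h3 := h2
    rw [hft, ← map_pow] at h3
    exact congrFun (hind _ _ _ h3) p

end

end Pool.Agent.Y166.DP
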