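import Pool.Agent.Y166.DP.Count
import Pool.Agent.Y166.DP.OddB
import Pool.Agent.Y166.DP.EvenD
import Pool.Agent.Y166.DP.Par

/-! The main theorem, from the lemmas. -/

set_option autoImplicit false
set_option linter.unusedSectionVars false

namespace Pool.Agent.Y166.DP

open MvPolynomial FF Pool.Agent.W603.LV Pool.Agent.TH145.GH

theorem main_of (hI : StmInf) (hB : StmBasis) (hExt : StmExt) (hDual : StmDual)
    (hPhi : StmPhi) (hUU : StmUU) (hHt : StmHt) (hInj : StmInj) (hTan : StmTan) (hMov : StmMov)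
    (hFF : StmFF) (hMap : StmMap) (hModel : StmModel) (hRK : StmRK) (hEqn : StmEqn)
    (hAlg : StmAlg) (hSpec : StmSpec) (hSurf : StmSurf) (hNo : StmNoSurf) (hComp : StmComp)
    (hDim : StmDim) (hDel : StmDel) (hRR : StmRR) (hL : StmLoc)
    (hK : StmKer) (hP : StmPrime) (hLine : StmLine) (hGen : StmGen) (hAs : StmAsym)
    {K : Type} [Field K] [Algebra ℂ K] (lam : ℂ) (hlam : Transcendental ℚ lam) (x y : K)
    (hE : Ell ℂ K lam x y) :
    (∀ (d : ℕ) (g : Fin 3 → K) (h : K), g ≠ 0 → x * h ^ 2 = quart g → ht ℂ g = d →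
      ∃ c : Idx d → ℂ, c ∈ cone x y d ∧ ∃ f : K, f ≠ 0 ∧ (∀ i, gv x y c i = f * g i) ∧
        xh x y c = f ^ 2 * (x * h)) ∧
    (∀ (d : ℕ) (c c' : Idx d → ℂ), c ∈ cone x y d → ∀ f : K, f ≠ 0 →
      (∀ i, gv x y c' i = f * gv x y c i) → xh x y c' = f ^ 2 * xh x y c →
      ∃ t : ℂ, t ≠ 0 ∧ (∀ p, c' (.inl p) = t * c (.inl p)) ∧
        ∀ p, c' (.inr p) = t ^ 2 * c (.inr p)) ∧
    (∀ d : ℕ, d.Prime → Odd d → ∀ M : Set (Idx d → ℂ), IsComp (cone x y d) M → dimSec M ≤ d) ∧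
    (∀ m : ℕ, 2 ≤ m → ∃ M : Set (Idx (2 * m) → ℂ), IsComp (cone x y (2 * m)) M ∧
      ¬ InSurface x y M ∧ 2 * m + 1 ≤ dimSec M) ∧
    ∀ Acc : ∀ d, Set (Set (Idx d → ℂ)), (∀ d, ∀ M ∈ Acc d, InSurface x y M) →
      ¬ ∀ q : ℝ, 1 < q → ∃ C : ℝ, 0 < C ∧
        Filter.Tendsto (fun d : ℕ => NN x y Acc q d / ENNReal.ofReal q ^ d) Filter.atTop
          (nhds (ENNReal.ofReal C)) := by
  have iFF : IsFF ℂ K := hFF ℂ K lam x y hE
  have hodd : ∀ d : ℕ, d.Prime → Odd d → ∀ M : Set (Idx d → ℂ), IsComp (cone x y d) M →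
      dimSec M ≤ d := by
    intro d hd hdo M hM
    have h1 := dim_odd hI hB hRK hDel hRR hExt hL hK hP hLine hDual hGen lam hlam x y hE d hd hdo
      M hM.1 hM.2.1
    unfold dimSec
    omega
  have heven : ∀ m : ℕ, 2 ≤ m → ∃ M : Set (Idx (2 * m) → ℂ), IsComp (cone x y (2 * m)) M ∧
      ¬ InSurface x y M ∧ 2 * m + 1 ≤ dimSec M := by
    intro m hm
    obtain ⟨Z, hZ, hirr, hdim, hsurf⟩ := even_family hI hB hExt hDual hPhi hUU hHt hInj hTan hMov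
      hFF hMap hModel hRK hEqn hAlg hSpec hSurf hNo lam x y hE m hm
    obtain ⟨M, hM, hZM⟩ := hComp ℂ (Idx (2 * m)) (cone x y (2 * m)) Z hZ hirr
    refine ⟨M, hM, ?_, ?_⟩
    · rintro ⟨n, Ψ, h1, h2, h3⟩
      exact hsurf ⟨n, Ψ, h1, h2, fun c hc => h3 c (hZM hc)⟩
    · have := hDim ℂ (Idx (2 * m)) Z M hZM hirr hM.2.1
      unfold dimSec
      omega
  refine ⟨fun d g h hg hh hht => exists_rep hI hB hRR hE d g h hg hh hht,
    fun d c c' hc f hf h1 h2 => rep_unique hI hB hRR hE d c c' hc f hf h1 h2, hodd, heven, ?_⟩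
  intro Acc hAcc
  refine hAs (fun d => Manin x y Acc d) (fun d M => dimSec M.1) ?_ ?_
  · intro p hp hpo M
    exact hodd p hp hpo M.1 M.2.1
  · intro m hm
    obtain ⟨M, hM, hs, hd⟩ := heven m hm
    exact ⟨⟨M, hM, fun h => hs (hAcc _ M h)⟩, hd⟩

end Pool.Agent.Y166.DP
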