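import Pool.Agent.Y166.DP.Img

/-! The bound for the dimension of a space of derivations at a point of odd prime height. -/

set_option autoImplicit false
set_option linter.unusedSectionVars false

namespace Pool.Agent.Y166.DP

open MvPolynomial FF Pool.Agent.W603.LV Pool.Agent.TH145.GH

section
variable {k K : Type} [Field k] [Field K] [Algebra k K]

theorem wr_def (D₁ D₂ : K → K) (g : Fin 3 → K) :
    wr D₁ D₂ g = g 0 * (D₁ (g 1) * D₂ (g 2) - D₁ (g 2) * D₂ (g 1)) -
      g 1 * (D₁ (g 0) * D₂ (g 2) - D₁ (g 2) * D₂ (g 0)) +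
      g 2 * (D₁ (g 0) * D₂ (g 1) - D₁ (g 1) * D₂ (g 0)) := by
  unfold wr
  rw [Matrix.det_fin_three]
  simp
  ring

theorem Lifts.sem {D : Derivation ℤ k k} {D' : Derivation ℤ K K} (h : Lifts D D') : Sem k D' :=
  fun c => ⟨D c, h c⟩

variable [CharZero k] [IsFF k K]

/-- Two lifts of the same derivation differ by a multiple of a nonzero derivation. -/
theorem lifts_diff {D : Derivation ℤ k k} {D₁ D₂ : Derivation ℤ K K} (h₁ : Lifts D D₁)
    (h₂ : Lifts D D₂) {δ : Derivation k K K} (hδ : δ ≠ 0) :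
    ∃ a : K, ∀ f, D₁ f = D₂ f + a * δ f := by
  obtain ⟨D₃, hD₃⟩ : ∃ D₃ : Derivation k K K, ∀ f, D₃ f = D₁ f - D₂ f := by
    refine ⟨Derivation.mk' (R := k) (A := K) (M := K)
      { toFun := fun f => D₁ f - D₂ f
        map_add' := fun a b => by rw [map_add, map_add]; ring
        map_smul' := fun c b => by
          have e1 : c • b = algebraMap k K c * b := Algebra.smul_def c b
          have e2 : c • (D₁ b - D₂ b) = algebraMap k K c * (D₁ b - D₂ b) := Algebra.smul_def c _
          rw [RingHom.id_apply, e1, e2, D₁.leibniz, D₂.leibniz, h₁, h₂]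
          simp only [smul_eq_mul]
          ring } ?_, fun f => rfl⟩
    intro a b
    change D₁ (a * b) - D₂ (a * b) = a • (D₁ b - D₂ b) + b • (D₁ a - D₂ a)
    rw [D₁.leibniz, D₂.leibniz]
    simp only [smul_eq_mul]
    ring
  obtain ⟨a, ha⟩ := der_smul (D' := D₃) hδ
  refine ⟨a, fun f => ?_⟩
  have h1 := hD₃ f
  rw [ha, Derivation.coe_smul, Pi.smul_apply, smul_eq_mul] at h1
  rw [h1]; ring

theorem wr_lifts {D : Derivation ℤ k k} {D₁ D₂ : Derivation ℤ K K} (h₁ : Lifts D D₁)
    (h₂ : Lifts D D₂) {δ : Derivation k K K} (hδ : δ ≠ 0) (g : Fin 3 → K) :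
    wr δ D₁ g = wr δ D₂ g := by
  obtain ⟨a, ha⟩ := lifts_diff h₁ h₂ hδ
  rw [wr_def, wr_def, ha, ha, ha]
  ring

/-- The determinant map. -/
theorem exists_W (hE : StmExt) {x : K} (hx : Transcendental k x) {δ : Derivation k K K}
    (hδ : δ ≠ 0) (g : Fin 3 → K) :
    ∃ W : Derivation ℤ k k →ₗ[k] K, ∀ (D : Derivation ℤ k k) (D' : Derivation ℤ K K),
      Lifts D D' → W D = wr δ D' g := by
  obtain ⟨hex, -⟩ := hE k K x hx
  choose L hL hLx using hex
  refine ⟨{ toFun := fun D => wr δ (L D) g
            map_add' := fun D₁ D₂ => ?_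
            map_smul' := fun a D => ?_ }, fun D D' h => ?_⟩
  · have h1 : Lifts (D₁ + D₂) (L D₁ + L D₂) := fun c => by
      rw [Derivation.add_apply, hL, hL, Derivation.add_apply, map_add]
    rw [wr_lifts (hL (D₁ + D₂)) h1 hδ, wr_def, wr_def, wr_def]
    simp only [Derivation.add_apply]
    ring
  · have h1 : Lifts (a • D) (algebraMap k K a • L D) := fun c => by
      rw [Derivation.smul_apply, hL, Derivation.smul_apply, smul_eq_mul, smul_eq_mul, map_mul]
    rw [wr_lifts (hL (a • D)) h1 hδ, wr_def, wr_def]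
    simp only [Derivation.smul_apply, smul_eq_mul, RingHom.id_apply, Algebra.smul_def]
    ring
  · exact wr_lifts (hL D) h hδ g

theorem wr_zero_of_quart {g : Fin 3 → K} (hg : g ≠ 0) (hq : quart g = 0) (δ : Derivation k K K)
    (D' : Derivation ℤ K K) : wr δ D' g = 0 := by
  have hchar : CharZero K := charZero_of_injective_algebraMap (algebraMap k K).injective
  have h1 : g 0 ^ 3 * g 0 + g 1 ^ 3 * g 1 + g 2 ^ 3 * g 2 = 0 := by
    have := hq; unfold quart at this; linear_combination this
  have h2 : g 0 ^ 3 * δ (g 0) + g 1 ^ 3 * δ (g 1) + g 2 ^ 3 * δ (g 2) = 0 := by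
    have h3 : δ (quart g) = 0 := by rw [hq, map_zero]
    unfold quart at h3
    rw [map_add, map_add, δ.leibniz_pow, δ.leibniz_pow, δ.leibniz_pow] at h3
    simp only [smul_eq_mul, nsmul_eq_mul] at h3
    have h4 : (4 : K) ≠ 0 := by norm_num
    apply mul_left_cancel₀ h4
    push_cast at h3
    linear_combination h3
  have h2' : g 0 ^ 3 * D' (g 0) + g 1 ^ 3 * D' (g 1) + g 2 ^ 3 * D' (g 2) = 0 := by
    have h3 : D' (quart g) = 0 := by rw [hq, map_zero]
    unfold quart at h3
    rw [map_add, map_add, D'.leibniz_pow, D'.leibniz_pow, D'.leibniz_pow] at h3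
    simp only [smul_eq_mul, nsmul_eq_mul] at h3
    have h4 : (4 : K) ≠ 0 := by norm_num
    apply mul_left_cancel₀ h4
    push_cast at h3
    linear_combination h3
  unfold wr
  by_contra hdet
  have hv := Matrix.eq_zero_of_mulVec_eq_zero hdet (v := fun i => g i ^ 3) (by
    funext i
    fin_cases i
    · simpa [Matrix.mulVec, dotProduct, Fin.sum_univ_three, mul_comm] using h1
    · simpa [Matrix.mulVec, dotProduct, Fin.sum_univ_three, mul_comm] using h2
    · simpa [Matrix.mulVec, dotProduct, Fin.sum_univ_three, mul_comm] using h2')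
  apply hg
  funext i
  have := congrFun hv i
  simpa using this

variable [IsAlgClosed k]

/-- The orders of `x` are even. -/
theorem even_x (hI : StmInf) {lam : k} {x y : K} (hE : Ell k K lam x y) (P : Place k K) :
    Even (P.ord x) := by
  obtain ⟨o, hox, hoy, ho⟩ := hI k K lam x y hE
  by_cases hP : P = o
  · rw [hP, hox]; exact ⟨-1, rfl⟩
  obtain ⟨h1, h2⟩ := ho P hP
  have hx0 : x ≠ 0 := fun h => hE.tr (h ▸ isAlgebraic_zero)
  have h3 := h1.resolve_left hx0
  rcases h3.lt_or_eq with h4 | h4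
  · have hne : ∀ c : k, c ≠ 0 → x - algebraMap k K c ≠ 0 ∧ P.ord (x - algebraMap k K c) = 0 := by
      intro c hc
      have h5 := P.ord_add_eq (f := -algebraMap k K c) (g := x)
        (neg_ne_zero.2 ((_root_.map_ne_zero _).2 hc)) hx0 (by rw [P.ord_neg, P.ord_const hc]; exact h4)
      rw [P.ord_neg, P.ord_const hc, neg_add_eq_sub] at h5
      exact h5
    have h5 := hne 1 one_ne_zero
    rw [map_one] at h5
    have h6 := hne lam hE.lam0
    have h7 := congrArg P.ord hE.eqn
    rw [P.ord_pow, P.ord_mul (mul_ne_zero hx0 h5.1) h6.1, P.ord_mul hx0 h5.1, h5.2, h6.2] at h7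
    exact ⟨P.ord y, by push_cast at h7; omega⟩
  · rw [← h4]; exact Even.zero

end

/-- The dimension of a space of derivations at a point of odd prime height. -/
theorem boundD (hI : StmInf) (hDel : StmDel) (hRR : StmRR) (hE : StmExt) (hL : StmLoc)
    (hK : StmKer) (hP : StmPrime) (hLine : StmLine) {k K : Type} [Field k] [Field K] [Algebra k K]
    [CharZero k] [IsAlgClosed k] [IsFF k K] (lam : k) (x y : K) (hEll : Ell k K lam x y) (d : ℕ)
    (hd : d.Prime) (hodd : Odd d) (c : Idx d → k) (hc : c ∈ cone x y d)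
    (E : Submodule k (Derivation ℤ k k)) [FiniteDimensional k E]
    (hinj : ∀ D ∈ E, D lam = 0 → (∀ p, D (c (.inl p)) = 0) → D = 0) :
    Module.finrank k E ≤ d + 2 := by
  classical
  obtain ⟨hg0, hh, hht⟩ := hc
  obtain ⟨δ, hδx, hδy, hδ0, hδ⟩ := hDel k K lam x y hEll
  obtain ⟨W, hW⟩ := exists_W hE hEll.tr hδ0 (gv x y c)
  have hbir : ∀ i₀, gv x y c i₀ ≠ 0 →
      IntermediateField.adjoin k (Set.range fun i => gv x y c i / gv x y c i₀) = ⊤ := by
    rcases hP k K (gv x y c) d hd hht with ⟨a, ha, hsum⟩ | h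
    · exact absurd (hLine k K lam x y hEll (gv x y c) (xh x y c) hh
        (by rw [hht]; exact_mod_cast hodd) a ha hsum) (fun h => h)
    · exact h
  -- the image
  have hx0 : x ≠ 0 := fun h => hEll.tr (h ▸ isAlgebraic_zero)
  have himg : ∃ F : Submodule k K, FiniteDimensional k F ∧ Module.finrank k F ≤ d ∧
      ∀ D, W D ∈ F := by
    by_cases hq : quart (gv x y c) = 0
    · refine ⟨⊥, inferInstance, by simp, fun D => ?_⟩
      obtain ⟨D', hD', -⟩ := (hE k K x hEll.tr).1 D
      rw [hW D D' hD', wr_zero_of_quart hg0 hq]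
      exact zero_mem _
    · have hev : ∀ P : Place k K, Even (P.ord (quart (gv x y c))) := by
        intro P
        have h1 := congrArg P.ord hh
        rw [P.ord_pow, P.ord_mul hx0 hq] at h1
        obtain ⟨n, hn⟩ := even_x hI hEll P
        exact ⟨P.ord (xh x y c) - n, by push_cast at h1; omega⟩
      obtain ⟨F, hF, hF'⟩ := img hL δ hδ0 hδ (gv x y c) hg0 hq hev
      have h1 : ell F = d := by
        rw [hRR k K lam x y hEll F (by rw [hF, hht]; exact_mod_cast hd.one_le), hF, hht]
      refine ⟨LL F, inferInstance, ?_, fun D => ?_⟩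
      · unfold ell at h1
        exact_mod_cast h1.le
      · obtain ⟨D', hD', -⟩ := (hE k K x hEll.tr).1 D
        rw [hW D D' hD']
        exact hF' D' hD'.sem
  obtain ⟨F, hFfin, hFd, hF⟩ := himg
  -- the kernel
  set WE : E →ₗ[k] F := (W.codRestrict F hF).comp E.subtype with hWE
  have hrank := LinearMap.finrank_range_add_finrank_ker WE
  have h1 : Module.finrank k (LinearMap.range WE) ≤ d :=
    (Submodule.finrank_le _).trans hFd
  have h2 : Module.finrank k (LinearMap.ker WE) ≤ 2 := by
    have h3 := hK k K lam x y hEll d (fun p => c (.inl p)) hd.one_le hht hbir δ hδx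
      ((LinearMap.ker WE).map E.subtype) (by
        rintro _ ⟨D, -, rfl⟩ h4 h5
        exact hinj _ D.2 h4 h5) (by
        rintro _ ⟨D, hD, rfl⟩ D' hD'
        have h4 : WE D = 0 := hD
        have h5 := congrArg (Subtype.val : F → K) h4
        have h6 := hW (D : Derivation ℤ k k) D' hD'
        exact h6.symm.trans h5)
    have h4 := LinearEquiv.finrank_eq (Submodule.equivMapOfInjective E.subtype
      E.injective_subtype (LinearMap.ker WE))
    rw [h4]
    exact h3.2
  omega

end Pool.Agent.Y166.DP
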