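import Pool.Agent.Y166.DP.Base

/-! Statements of the lemmas. -/

set_option autoImplicit false
set_option linter.unusedSectionVars false

namespace Pool.Agent.Y166.DP

open MvPolynomial FF Pool.Agent.W603.LV Pool.Agent.TH145.GH

/-! ### Group A: the elliptic function field -/

/-- A1 -/
def StmFF : Prop :=
  ∀ (k K : Type) [Field k] [Field K] [Algebra k K] [CharZero k] (lam : k) (x y : K),
    Ell k K lam x y → IsFF k K

/-- A2: the point at infinity. -/
def StmInf : Prop :=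
  ∀ (k K : Type) [Field k] [Field K] [Algebra k K] [CharZero k] [IsAlgClosed k] [IsFF k K]
    (lam : k) (x y : K), Ell k K lam x y →
    ∃ o : Place k K, o.ord x = -2 ∧ o.ord y = -3 ∧ ∀ P, P ≠ o → Ge P 0 x ∧ Ge P 0 y

/-- A3: the invariant vector field. -/
def StmDel : Prop :=
  ∀ (k K : Type) [Field k] [Field K] [Algebra k K] [CharZero k] [IsAlgClosed k] [IsFF k K]
    (lam : k) (x y : K), Ell k K lam x y →
    ∃ δ : Derivation k K K, δ x = 2 * y ∧ δ y = cub' lam x ∧ δ ≠ 0 ∧ ∀ P : Place k K, vo P δ = 0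

/-- A4: there is no function of degree one. -/
def StmNo1 : Prop :=
  ∀ (k K : Type) [Field k] [Field K] [Algebra k K] [CharZero k] [IsAlgClosed k] [IsFF k K]
    (lam : k) (x y : K), Ell k K lam x y →
    ∀ (f : K) (P₀ : Place k K), P₀.ord f = -1 → (∀ P, P ≠ P₀ → Ge P 0 f) → False

/-- A5: the functions with poles only at infinity. -/
def StmBasis : Prop :=
  ∀ (k K : Type) [Field k] [Field K] [Algebra k K] [CharZero k] [IsAlgClosed k] [IsFF k K]
    (lam : k) (x y : K), Ell k K lam x y → ∀ o : Place k K, o.ord x < 0 →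
    (∀ j : ℕ, fn x y j ≠ 0 ∧ o.ord (fn x y j) = if j = 0 then 0 else -((j : ℤ) + 1)) ∧
    (∀ (N : ℕ) (c : Fin N → k), fsum x y c = 0 → c = 0) ∧
    ∀ (N : ℕ), 0 < N → ∀ f : K,
      ((∀ P, P ≠ o → Ge P 0 f) ∧ Ge o (-(N : ℤ)) f) ↔ ∃ c : Fin N → k, f = fsum x y c

/-- A6: Riemann-Roch. -/
def StmRR : Prop :=
  ∀ (k K : Type) [Field k] [Field K] [Algebra k K] [CharZero k] [IsAlgClosed k] [IsFF k K]
    (lam : k) (x y : K), Ell k K lam x y →
    ∀ D : Place k K →₀ ℤ, 1 ≤ ddeg D → ell D = ddeg D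

/-- A7: the places and the points of the curve. -/
def StmPts : Prop :=
  ∀ (k K : Type) [Field k] [Field K] [Algebra k K] [CharZero k] [IsAlgClosed k] [IsFF k K]
    (lam : k) (x y : K), Ell k K lam x y →
    (∀ P : Place k K, Ge P 0 x → ∃ a b : k, b ^ 2 = a * (a - 1) * (a - lam) ∧
      Ge P 1 (x - algebraMap k K a) ∧ Ge P 1 (y - algebraMap k K b)) ∧
    (∀ a b : k, b ^ 2 = a * (a - 1) * (a - lam) → ∃ P : Place k K,
      Ge P 1 (x - algebraMap k K a) ∧ Ge P 1 (y - algebraMap k K b)) ∧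
    ∀ (a b : k) (P : Place k K), Ge P 1 (x - algebraMap k K a) → Ge P 1 (y - algebraMap k K b) →
      (∀ P' : Place k K, Ge P' 1 (x - algebraMap k K a) → Ge P' 1 (y - algebraMap k K b) →
        P' = P) ∧
      (b ≠ 0 → P.ord (x - algebraMap k K a) = 1) ∧
      (b = 0 → P.ord y = 1 ∧ P.ord (x - algebraMap k K a) = 2)

/-- A8: function fields over different constants. -/
def StmMap : Prop :=
  ∀ (k₀ K₀ k K : Type) [Field k₀] [Field K₀] [Algebra k₀ K₀] [Field k] [Field K] [Algebra k K]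
    [CharZero k₀] [Algebra k₀ k] (lam : k₀) (x₀ y₀ : K₀) (x y : K), Ell k₀ K₀ lam x₀ y₀ →
    Ell k K (algebraMap k₀ k lam) x y → ∃ φ : K₀ →+* K, φ x₀ = x ∧ φ y₀ = y ∧
      ∀ c : k₀, φ (algebraMap k₀ K₀ c) = algebraMap k K (algebraMap k₀ k c)

/-! ### Group B: derivations -/

/-- B1: lifts of derivations of the field of constants. -/
def StmExt : Prop :=
  ∀ (k K : Type) [Field k] [Field K] [Algebra k K] [CharZero k] [IsFF k K] (x : K),
    Transcendental k x →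
    (∀ D : Derivation ℤ k k, ∃ D' : Derivation ℤ K K, Lifts D D' ∧ D' x = 0) ∧
    ∀ D₁ D₂ : Derivation ℤ K K, (∀ c : k, D₁ (algebraMap k K c) = D₂ (algebraMap k K c)) →
      D₁ x = D₂ x → D₁ = D₂

/-- B2: the local estimate. -/
def StmLoc : Prop :=
  ∀ (k K : Type) [Field k] [Field K] [Algebra k K] [CharZero k] [IsAlgClosed k] [IsFF k K]
    (P : Place k K) (δ : Derivation k K K), δ ≠ 0 → vo P δ = 0 →
    ∀ D' : Derivation ℤ K K, Sem k D' → ∀ g : Fin 3 → K, g ≠ 0 → quart g ≠ 0 →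
    Even (P.ord (quart g)) →
    wr δ D' g = 0 ∨ 2 * mo P g + P.ord (quart g) ≤ 2 * P.ord (wr δ D' g)

/-- B3: a derivation that maps constants to constants and kills generators preserves the local
ring. -/
def StmReg : Prop :=
  ∀ (k K : Type) [Field k] [Field K] [Algebra k K] [CharZero k] [IsAlgClosed k] [IsFF k K]
    (P : Place k K) (D' : Derivation ℤ K K), Sem k D' → ∀ S : Set K, (∀ s ∈ S, D' s = 0) →
    (∀ s ∈ S, Ge P 0 s) → IntermediateField.adjoin k S = ⊤ → ∀ f, Ge P 0 f → Ge P 0 (D' f)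

/-- B4: a regular lift of a derivation `D` of the constants exists only if `D lam = 0`. -/
def StmKS : Prop :=
  ∀ (k K : Type) [Field k] [Field K] [Algebra k K] [CharZero k] [IsAlgClosed k] [IsFF k K]
    (lam : k) (x y : K), Ell k K lam x y → ∀ (D : Derivation ℤ k k) (D' : Derivation ℤ K K),
    Lifts D D' → (∀ (P : Place k K) (f : K), Ge P 0 f → Ge P 0 (D' f)) →
    D lam = 0 ∧ ∃ b : k, D' x = algebraMap k K b * (2 * y) ∧ D' y = algebraMap k K b * cub' lam x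

/-- B5: derivations with vanishing determinant. -/
def StmKer : Prop :=
  ∀ (k K : Type) [Field k] [Field K] [Algebra k K] [CharZero k] [IsAlgClosed k] [IsFF k K]
    (lam : k) (x y : K), Ell k K lam x y → ∀ (d : ℕ) (c : Fin 3 × Fin (d + 1) → k),
    1 ≤ d → ht k (fun i => fsum x y fun j => c (i, j)) = d →
    (∀ i₀, (fsum x y fun j => c (i₀, j)) ≠ 0 → IntermediateField.adjoin k
      (Set.range fun i => (fsum x y fun j => c (i, j)) / (fsum x y fun j => c (i₀, j))) = ⊤) →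
    ∀ δ : Derivation k K K, δ x = 2 * y →
    ∀ 𝒟 : Submodule k (Derivation ℤ k k),
    (∀ D ∈ 𝒟, D lam = 0 → (∀ p, D (c p) = 0) → D = 0) →
    (∀ D ∈ 𝒟, ∀ D' : Derivation ℤ K K, Lifts D D' →
      wr δ D' (fun i => fsum x y fun j => c (i, j)) = 0) →
    FiniteDimensional k 𝒟 ∧ Module.finrank k 𝒟 ≤ 2

/-- B6: points of prime height. -/
def StmPrime : Prop :=
  ∀ (k K : Type) [Field k] [Field K] [Algebra k K] [CharZero k] [IsAlgClosed k] [IsFF k K]
    (g : Fin 3 → K) (p : ℕ), p.Prime → ht k g = p →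
    (∃ a : Fin 3 → k, a ≠ 0 ∧ ∑ i, algebraMap k K (a i) * g i = 0) ∨
    ∀ i₀, g i₀ ≠ 0 → IntermediateField.adjoin k (Set.range fun i => g i / g i₀) = ⊤

/-- B7: there are no sections of odd height over a line. -/
def StmLine : Prop :=
  ∀ (k K : Type) [Field k] [Field K] [Algebra k K] [CharZero k] [IsAlgClosed k] [IsFF k K]
    (lam : k) (x y : K), Ell k K lam x y → ∀ (g : Fin 3 → K) (h : K),
    h ^ 2 = x * quart g → Odd (ht k g) → ∀ a : Fin 3 → k, a ≠ 0 →
    ∑ i, algebraMap k K (a i) * g i = 0 → False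

/-- B8: a derivation that kills a function preserves the order at its zeros and poles. -/
def StmPres : Prop :=
  ∀ (k K : Type) [Field k] [Field K] [Algebra k K] [CharZero k] [IsAlgClosed k] [IsFF k K]
    (P : Place k K) (D' : Derivation ℤ K K), Sem k D' →
    (∀ π : K, P.ord π = 1 → ∀ f : K, f ≠ 0 → P.ord f ≠ 0 → D' f = 0 → Ge P 1 (D' π)) ∧
    ∀ π : K, P.ord π = 1 → Ge P 1 (D' π) → ∀ (n : ℤ) (f : K), Ge P n f → Ge P n (D' f)

/-! ### Group C: families and components -/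

/-- C1: the height is lower semicontinuous, uniformly in the field. -/
def StmRK : Prop :=
  ∀ (k₀ : Type) [Field k₀] (lam : k₀) (d e : ℕ), ∃ S : Set (MvPolynomial (Fin 3 × Fin (d + 1)) k₀),
    ∀ (k K : Type) [Field k] [Field K] [Algebra k K] [CharZero k] [IsAlgClosed k] [IsFF k K]
      [Algebra k₀ k] (x y : K), Ell k K (algebraMap k₀ k lam) x y →
      ∀ c : Fin 3 × Fin (d + 1) → k, c ≠ 0 →
        ((∃ F ∈ S, aeval c F ≠ 0) ↔ (e : ℤ) ≤ ht k (fun i => fsum x y fun j => c (i, j)))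

/-- C1': the equation of the cone is given by polynomials, uniformly in the field. -/
def StmEqn : Prop :=
  ∀ (k₀ : Type) [Field k₀] (lam : k₀) (d : ℕ), ∃ T : Set (MvPolynomial (Idx d) k₀),
    ∀ (k K : Type) [Field k] [Field K] [Algebra k K] [Algebra k₀ k] (x y : K),
      Ell k K (algebraMap k₀ k lam) x y → ∀ c : Idx d → k,
        (xh x y c ^ 2 = x * quart (gv x y c) ↔ ∀ F ∈ T, aeval c F = 0)

/-- C2: dual derivations of an algebraically independent family. -/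
def StmDual : Prop :=
  ∀ (k₀ k : Type) [Field k₀] [Field k] [CharZero k₀] [Algebra k₀ k] (ι : Type) [Fintype ι]
    [DecidableEq ι] (z : ι → k), AlgebraicIndependent k₀ z →
    ∃ D : ι → Derivation k₀ k k, ∀ i j, D i (z j) = if i = j then 1 else 0

/-- C3: elements killed by all derivations that kill a set. -/
def StmAlg : Prop :=
  ∀ (k₀ k : Type) [Field k₀] [Field k] [CharZero k₀] [Algebra k₀ k] (S : Set k) (z : k),
    (∀ D : Derivation k₀ k k, (∀ s ∈ S, D s = 0) → D z = 0) →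
    IsAlgebraic (IntermediateField.adjoin k₀ S) z

/-- C4: generic points of varieties over the complex numbers. -/
def StmGen : Prop :=
  ∀ (σ : Type) [Finite σ] (I : Ideal (MvPolynomial σ ℂ)), I.IsPrime →
    ∀ h : MvPolynomial σ ℂ, h ∉ I → ∀ lam : ℂ, Transcendental ℚ lam →
    ∃ ξ : σ → ℂ, (∀ F ∈ I, eval ξ F = 0) ∧ eval ξ h ≠ 0 ∧
      ∃ j : Fin (Cardinal.toNat (Algebra.trdeg ℂ (MvPolynomial σ ℂ ⧸ I))) → σ,
        AlgebraicIndependent ℚ (Fin.cons lam (fun i => ξ (j i)) : Fin (_ + 1) → ℂ)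

/-- C5: irreducible subsets are contained in components. -/
def StmComp : Prop :=
  ∀ (k σ : Type) [Field k] [Finite σ] (W Z : Set (σ → k)), Z ⊆ W → IsIrr Z →
    ∃ M, IsComp W M ∧ Z ⊆ M

/-- C6: monotonicity of the dimension. -/
def StmDim : Prop :=
  ∀ (k σ : Type) [Field k] [Finite σ] (Z M : Set (σ → k)), Z ⊆ M → IsIrr Z → IsIrr M →
    dimA Z ≤ dimA M

/-- C7: the irreducible set of the specializations of a point over a larger field. -/
def StmSpec : Prop :=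
  ∀ (k₀ k σ : Type) [Field k₀] [IsAlgClosed k₀] [Field k] [Algebra k₀ k] [Finite σ] (ξ : σ → k)
    (μ : MvPolynomial σ k₀), aeval ξ μ ≠ 0 →
    ∀ Z : Set (σ → k₀), Z = {z | (∀ F : MvPolynomial σ k₀, aeval ξ F = 0 → eval z F = 0) ∧
      eval z μ ≠ 0} →
    (∀ F : MvPolynomial σ k₀, F ∈ van Z ↔ aeval ξ F = 0) ∧ IsIrr Z ∧
    ∀ (ι : Type) [Fintype ι] (z : ι → k), AlgebraicIndependent k₀ z →
      (∀ i, IsAlgebraic (IntermediateField.adjoin k₀ (Set.range ξ)) (z i)) →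
      Fintype.card ι ≤ dimA Z

/-- C8: surfaces contain all specializations only if they contain the point. -/
def StmSurf : Prop :=
  ∀ (k₀ K₀ k K : Type) [Field k₀] [Field K₀] [Algebra k₀ K₀] [Field k] [Field K] [Algebra k K]
    [Algebra k₀ k] (x₀ y₀ : K₀) (φ : K₀ →+* K) (d : ℕ)
    (_ : ∀ c : k₀, φ (algebraMap k₀ K₀ c) = algebraMap k K (algebraMap k₀ k c))
    (ξ : Idx d → k) (Z : Set (Idx d → k₀))
    (_ : ∀ F : MvPolynomial (Idx d) k₀, F ∈ van Z → aeval ξ F = 0)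
    (Ψ : MvPolynomial (Fin 3) K₀), (∀ c ∈ Z, eval (gv x₀ y₀ c) Ψ = 0) →
    eval (gv (φ x₀) (φ y₀) ξ) (map φ Ψ) = 0

/-- C9: a point with nonzero determinant lies on no surface over the field of constants of the
derivations. -/
def StmNoSurf : Prop :=
  ∀ (K₀ K : Type) [Field K₀] [Field K] [CharZero K] (φ : K₀ →+* K) (D₁ D₂ : Derivation ℤ K K),
    (∀ a, D₁ (φ a) = 0) → (∀ a, D₂ (φ a) = 0) → ∀ g : Fin 3 → K, wr D₁ D₂ g ≠ 0 →
    ∀ (n : ℕ) (Ψ : MvPolynomial (Fin 3) K₀), Ψ.IsHomogeneous n → Ψ ≠ 0 → eval g (map φ Ψ) ≠ 0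

/-! ### Group E: the large families of even height -/

section
variable {k K : Type} [Field k] [Field K] [Algebra k K]

/-- the `x`-coordinate of the point `p'` -/
def px (α β γ : k) : k := (α + β) * (α + γ)

/-- the `y`-coordinate of the point `p'` -/
def py (α β γ : k) : k := (α + β) * (α + γ) * (β + γ)

/-- the function with the divisor `2 p' - p - o` -/
def phi (x y : K) (α β γ : k) : K :=
  (y + algebraMap k K (α * β * γ) -
    algebraMap k K (α + β + γ) * (x - algebraMap k K (α ^ 2))) / (x - algebraMap k K (α ^ 2))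

/-- a function that vanishes at `p'` -/
def r0 (x y : K) (α β γ : k) {m : ℕ} (r : Fin m → k) : K :=
  ∑ j, algebraMap k K (r j) *
    (fn x y (j + 1) - algebraMap k K (fn (px α β γ) (py α β γ) (j + 1)))

/-- a function that vanishes at `p'` and at the point `(0, 0)` -/
def r1 (x y : K) (α β γ : k) {m : ℕ} (r : Fin m → k) : K :=
  ∑ j, algebraMap k K (r j) *
    (fn x y (j + 2) - algebraMap k K (fn (px α β γ) (py α β γ) (j + 2) / px α β γ) * x)

/-- the two products of linear forms -/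
def uu (x y : K) (α β γ : k) {m : ℕ} (r s : Fin m → k) : Fin 2 → K :=
  ![r0 x y α β γ r ^ 2 / phi x y α β γ, r1 x y α β γ s ^ 2 / (x * phi x y α β γ)]

end

/-- E1: the divisor of `phi`. -/
def StmPhi : Prop :=
  ∀ (k K : Type) [Field k] [Field K] [Algebra k K] [CharZero k] [IsAlgClosed k] [IsFF k K]
    (lam : k) (x y : K), Ell k K lam x y → ∀ o : Place k K, o.ord x < 0 → ∀ α β γ : k,
    β ^ 2 = α ^ 2 - 1 → γ ^ 2 = α ^ 2 - lam → α * β * γ ≠ 0 → α * β + α * γ + β * γ ≠ 0 →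
    ∃ p p' : Place k K, p ≠ o ∧ p' ≠ o ∧ p ≠ p' ∧
      Ge p 1 (x - algebraMap k K (α ^ 2)) ∧ Ge p 1 (y - algebraMap k K (α * β * γ)) ∧
      Ge p' 1 (x - algebraMap k K (px α β γ)) ∧ Ge p' 1 (y - algebraMap k K (py α β γ)) ∧
      phi x y α β γ ≠ 0 ∧
      ∀ P : Place k K, (P = p' → P.ord (phi x y α β γ) = 2) ∧
        (P = p → P.ord (phi x y α β γ) = -1) ∧ (P = o → P.ord (phi x y α β γ) = -1) ∧
        (P ≠ p' → P ≠ p → P ≠ o → P.ord (phi x y α β γ) = 0)

/-- E2: the functions `uu` have poles only at infinity, of order at most `2 m + 1`, and common zero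
`p`. -/
def StmUU : Prop :=
  ∀ (k K : Type) [Field k] [Field K] [Algebra k K] [CharZero k] [IsAlgClosed k] [IsFF k K]
    (lam : k) (x y : K), Ell k K lam x y → ∀ o : Place k K, o.ord x < 0 → ∀ α β γ : k,
    β ^ 2 = α ^ 2 - 1 → γ ^ 2 = α ^ 2 - lam → α * β * γ ≠ 0 → α * β + α * γ + β * γ ≠ 0 →
    ∀ (m : ℕ) (r s : Fin m → k) (i : Fin 2),
      (∀ P, P ≠ o → Ge P 0 (uu x y α β γ r s i)) ∧
      Ge o (-(2 * m + 1 : ℤ)) (uu x y α β γ r s i) ∧
      ∀ P : Place k K, Ge P 1 (x - algebraMap k K (α ^ 2)) → Ge P 1 (y - algebraMap k K (α * β * γ)) →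
        Ge P 1 (uu x y α β γ r s i)

/-- E3: the height is `2 m` in general. -/
def StmHt : Prop :=
  ∀ (k K : Type) [Field k] [Field K] [Algebra k K] [CharZero k] [IsAlgClosed k] [IsFF k K]
    (lam : k) (x y : K), Ell k K lam x y → ∀ α β γ : k,
    β ^ 2 = α ^ 2 - 1 → γ ^ 2 = α ^ 2 - lam → α * β * γ ≠ 0 → α * β + α * γ + β * γ ≠ 0 →
    ∀ (m : ℕ) (r s : Fin m → k), 2 ≤ m → r ≠ 0 → s ≠ 0 →
    (∀ j : Fin m, ∃ D : Derivation ℤ k k, D lam = 0 ∧ D α = 0 ∧ (∀ i, D (r i) = 0) ∧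
      ∀ i, D (s i) = if i = j then 1 else 0) →
    ht k (uu x y α β γ r s) = 2 * m

/-- E4: the functions `uu` determine their parameters. -/
def StmInj : Prop :=
  ∀ (k K : Type) [Field k] [Field K] [Algebra k K] [CharZero k] [IsAlgClosed k] [IsFF k K]
    (lam : k) (x y : K), Ell k K lam x y → ∀ α β γ : k,
    β ^ 2 = α ^ 2 - 1 → γ ^ 2 = α ^ 2 - lam → α * β * γ ≠ 0 → α * β + α * γ + β * γ ≠ 0 →
    ∀ (m : ℕ) (r s : Fin m → k), 1 ≤ m → r ≠ 0 → s ≠ 0 → ht k (uu x y α β γ r s) = 2 * m →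
    ∀ (D : Derivation ℤ k k) (D' : Derivation ℤ K K), D lam = 0 → Lifts D D' → D' x = 0 →
    (∀ i, D' (uu x y α β γ r s i) = 0) → D α = 0 ∧ (∀ j, D (r j) = 0) ∧ ∀ j, D (s j) = 0

section
variable {k K : Type} [Field k] [Field K] [Algebra k K]

/-- the triple `g` on the tangent line at the point `(1, τ, a)` of the quartic curve -/
def gg (τ a ω : k) (u : Fin 2 → K) : Fin 3 → K :=
  let t := (u 1 - u 0) * algebraMap k K (3 * τ / ω)
  let s := u 0 + algebraMap k K ((-2 * (τ ^ 4 - 1) + ω) / (6 * τ)) * t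
  ![s + algebraMap k K (τ ^ 3) * t, algebraMap k K τ * s - t, algebraMap k K a * s]

end

/-- E5: the values of the quartic form on a tangent line. -/
def StmTan : Prop :=
  ∀ (k K : Type) [Field k] [Field K] [Algebra k K] [CharZero k] [IsAlgClosed k] [IsFF k K]
    (τ a ω : k), a ^ 4 = -(1 + τ ^ 4) → ω ^ 2 = -2 * (τ ^ 8 + τ ^ 4 + 1) → τ ≠ 0 → ω ≠ 0 →
    a ≠ 0 → ∀ u : Fin 2 → K,
    quart (gg τ a ω u) = algebraMap k K (6 * τ ^ 2 * (1 + τ ^ 4)) *
      ((u 1 - u 0) * algebraMap k K (3 * τ / ω)) ^ 2 * u 0 * u 1 ∧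
    ht k (gg τ a ω u) = ht k u

/-- E6: derivations of points on a moving tangent line. -/
def StmMov : Prop :=
  ∀ (k K : Type) [Field k] [Field K] [Algebra k K] [CharZero k] [IsAlgClosed k] [IsFF k K]
    (τ a ω : k), a ^ 4 = -(1 + τ ^ 4) → ω ^ 2 = -2 * (τ ^ 8 + τ ^ 4 + 1) → τ ≠ 0 → ω ≠ 0 →
    a ≠ 0 → ∀ u : Fin 2 → K, 0 < ht k u →
    (∀ (D : Derivation ℤ k k) (D' : Derivation ℤ K K), Lifts D D' →
      (∀ i, D' (gg τ a ω u i) = 0) → D τ = 0 ∧ ∀ i, D' (u i) = 0) ∧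
    ∀ (D₁ D₂ : Derivation ℤ k k) (D₁' D₂' : Derivation ℤ K K), Lifts D₁ D₁' → Lifts D₂ D₂' →
      D₁ τ ≠ 0 → D₂ τ = 0 → D₂' (u 0) ≠ 0 → D₂' (u 1) = 0 → u 1 ≠ 0 →
      wr D₁' D₂' (gg τ a ω u) ≠ 0

/-! ### Group F: the counting argument -/

/-- F1: the asymptotic formula fails if the dimensions for odd primes `d` are at most `d`, and for
even `d` there is a component of dimension at least `d + 1`. -/
def StmAsym : Prop :=
  ∀ (ι : ℕ → Type) (dm : ∀ d, ι d → ℕ),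
    (∀ p : ℕ, p.Prime → Odd p → ∀ M : ι p, dm p M ≤ p) →
    (∀ m : ℕ, 2 ≤ m → ∃ M : ι (2 * m), 2 * m + 1 ≤ dm (2 * m) M) →
    ¬ ∀ q : ℝ, 1 < q → ∃ C : ℝ, 0 < C ∧
      Filter.Tendsto (fun d : ℕ => (∑ i ∈ Finset.Icc 1 d, ∑' M : ι i, ENNReal.ofReal q ^ dm i M) /
        ENNReal.ofReal q ^ d) Filter.atTop (nhds (ENNReal.ofReal C))

/-! ### The model -/

open Polynomial in
/-- A9: the function field of the elliptic curve in Mathlib. -/
def StmModel : Prop :=
  ∀ (k : Type) [Field k] [CharZero k] (lam : k), lam ≠ 0 → lam ≠ 1 →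
    Ell k (KB k lam) lam (xB k lam) (yB k lam)

end Pool.Agent.Y166.DP
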